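import Mathlib
import Pool.Agent.Helper669.Forcing

/-! Chang's Conjecture principles, cofinalities and covering in the forcing language. -/

set_option autoImplicit false

namespace Run7.h478.U

open Cardinal Pool.Agent.Helper669.Forcing

variable {P : Type} [Preorder P]

/-- The subset of `K` named by `X` is closed under the operation on finite sequences of elements
of `K` named by `F`. -/
def ClosedUnder {K : Type} (F : List K → K → Set P) (X : K → Set P) : Set P :=
  fall fun s : List K => fall fun y : K =>
    fimp (fand (fall fun i : Fin s.length => meets (X (s.get i))) (meets (F s y))) (meets (X y))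

/-- The subset of `K` named by `X` has at least `κ` elements: some injective function with domain
`κ` has all its values in it. -/
def SizeGe {K : Type} (κ : Cardinal.{0}) (X : K → Set P) : Set P :=
  fex fun R : κ.ord.ToType → K → Set P =>
    fand (IsFun R) (fand (IsInj R) (fall fun i => fall fun y => fimp (meets (R i y)) (meets (X y))))

/-- The subset of `K` named by `X` has at most `γ` elements: it is contained in the range of a
function with domain `γ`. -/
def SizeLe {K : Type} (γ : Cardinal.{0}) (X : K → Set P) : Set P :=
  fex fun R : γ.ord.ToType → K → Set P =>
    fand (IsFun R) (fall fun y => fimp (meets (X y)) (fex fun i => meets (R i y)))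

/-- The principle `(|K|, |B|) ↠ (κ, γ)` in the extension: for every operation `F` on the finite
sequences of elements of `K` there is a subset `X` of `K` closed under `F` such that `X` has at
least `κ` elements and `X ∩ B` has at most `γ` elements. -/
def Chang (P : Type) [Preorder P] (K : Type) (B : Set K) (κ γ : Cardinal.{0}) : Set P :=
  fall fun F : List K → K → Set P => fimp (IsFun F) (fex fun X : K → Set P =>
    fand (ClosedUnder F X) (fand (SizeGe κ X) (SizeLe γ fun y => {p ∈ X y | y ∈ B})))

/-- In the extension, every function from a ground model set `A` to the ordinal `κ` is bounded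
below `κ`. -/
def BoundedBy (P : Type) [Preorder P] (A : Type) (κ : Cardinal.{0}) : Set P :=
  fall fun R : A → κ.ord.ToType → Set P => fimp (IsFun R) (fex fun b : κ.ord.ToType =>
    fall fun x => fall fun y => fimp (meets (R x y)) (fground (y < b)))

/-- In the extension, `κ` is regular: all functions from smaller cardinals to `κ` are bounded. -/
def Regular (P : Type) [Preorder P] (κ : Cardinal.{0}) : Set P :=
  fall fun θ : Cardinal.{0} => fall fun _ : θ < κ => BoundedBy P θ.out κ

/-- In the extension, every function from a cardinal `θ < γ` to a set `Y` of the ground model has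
its range covered by a subset of `Y` which belongs to the ground model and has size less than
`lam` there. -/
def Covering (P : Type) [Preorder P] (γ lam : Cardinal.{0}) : Set P :=
  fall fun Y : Type => fall fun θ : Cardinal.{0} => fall fun _ : θ < γ =>
    fall fun R : θ.out → Y → Set P => fimp (IsFun R) (fex fun C : Set Y =>
      fand (fground (#C < lam))
        (fall fun i => fall fun y => fimp (meets (R i y)) (fground (y ∈ C))))

/-- All antichains of `P` have size less than `κ`. -/
def ChainCondition (P : Type) [Preorder P] (κ : Cardinal.{0}) : Prop :=
  ∀ A : Set P, (∀ a ∈ A, ∀ b ∈ A, (∃ s, s ≤ a ∧ s ≤ b) → a = b) → #A < κ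

/-- `P` is proper: there is a function `F` on finite sequences such that for every countable set
`Z` of subsets and elements of `P` which is closed under `F`, every `p` in `Z` has an extension `q`
which is generic over `Z`: for every dense set `D` in `Z`, the members of `D` which belong to `Z`
are predense below `q`. -/
def IsProper (P : Type) [Preorder P] : Prop :=
  ∃ F : List (Set P ⊕ P) → Set P ⊕ P, ∀ Z : Set (Set P ⊕ P), Z.Countable →
    (∀ l : List (Set P ⊕ P), (∀ x ∈ l, x ∈ Z) → F l ∈ Z) → ∀ p : P, Sum.inr p ∈ Z →
      ∃ q ≤ p, ∀ D : Set P, Sum.inl D ∈ Z → (∀ r, ∃ d ∈ D, d ≤ r) →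
        ∀ r ≤ q, ∃ d ∈ D, Sum.inr d ∈ Z ∧ ∃ s, s ≤ d ∧ s ≤ r

end Run7.h478.U
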