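import Mathlib

/-! Tools about closed unbounded and stationary subsets of well-orders. -/

set_option autoImplicit false

namespace Run7.h478

open Cardinal Set Order

universe u v

section general

variable {α : Type u} [LinearOrder α] [WellFoundedLT α]

theorem exists_lub' {s : Set α} (h : BddAbove s) : ∃ x, IsLUB s x := by
  obtain ⟨b, hb⟩ := h
  have h1 : (upperBounds s).Nonempty := ⟨b, hb⟩
  refine ⟨wellFounded_lt.min (upperBounds s) h1, wellFounded_lt.min_mem _ h1, fun y hy => ?_⟩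
  exact not_lt.1 (wellFounded_lt.not_lt_min (upperBounds s) hy)

/-- In a well-order of uncountable cofinality every cofinal set has limit points of countable
cofinality above any given point. -/
theorem exists_acc (hα : ℵ₀ < cof α) {H : Set α} (hH : IsCofinal H) (j : α) :
    ∃ ξ, j < ξ ∧ cof (Iio ξ) = ℵ₀ ∧ ∀ k < ξ, ∃ h ∈ H, k < h ∧ h < ξ := by
  have : Nonempty α := ⟨j⟩
  have : NoTopOrder α := one_lt_cof_iff.1 (one_lt_aleph0.trans hα)
  have : NoMaxOrder α := noTopOrder_iff_noMaxOrder α |>.1 this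
  have h1 : ∀ a : α, ∃ h ∈ H, a < h := by
    intro a
    obtain ⟨b, hb⟩ := exists_gt a
    obtain ⟨h, hh, hbh⟩ := hH b
    exact ⟨h, hh, hb.trans_le hbh⟩
  choose nx hnx1 hnx2 using h1
  let a : ℕ → α := fun n => nx^[n + 1] j
  have ha : ∀ n, a (n + 1) = nx (a n) := fun n => Function.iterate_succ_apply' nx (n + 1) j
  have hlt : ∀ n, a n < a (n + 1) := fun n => by
    rw [ha n]
    exact hnx2 _
  have hmono : StrictMono a := strictMono_nat_of_lt_succ hlt
  have hmem : ∀ n, a n ∈ H := by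
    intro n
    change nx^[n + 1] j ∈ H
    rw [Function.iterate_succ_apply']
    exact hnx1 _
  have hbdd : BddAbove (range a) := by
    refine .of_not_isCofinal fun h => (cof_le h).not_gt (lt_of_le_of_lt ?_ hα)
    rw [Cardinal.mk_le_aleph0_iff, Set.countable_coe_iff]
    exact countable_range _
  obtain ⟨ξ, hξ⟩ := exists_lub' hbdd
  have hlt' : ∀ n, a n < ξ := fun n => (hlt n).trans_le (hξ.1 ⟨n + 1, rfl⟩)
  have hex : ∀ k < ξ, ∃ n, k < a n := by
    intro k hk
    by_contra hcon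
    push Not at hcon
    refine absurd (hξ.2 ?_) (not_le.2 hk)
    rintro _ ⟨n, rfl⟩
    exact hcon n
  refine ⟨ξ, (hnx2 j).trans (hlt' 0), ?_, fun k hk => ?_⟩
  · have h2 : IsCofinal (range fun n => (⟨a n, hlt' n⟩ : Iio ξ)) := by
      intro k
      obtain ⟨n, hn⟩ := hex k.1 k.2
      exact ⟨_, ⟨n, rfl⟩, hn.le⟩
    have h3 : StrictMono fun n => (⟨a n, hlt' n⟩ : Iio ξ) := fun m n hmn => hmono hmn
    have h4 := lift_cof_congr_of_strictMono h3 h2
    simpa using h4.symm
  · obtain ⟨n, hn⟩ := hex k hk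
    exact ⟨a n, hmem n, hn, hlt' n⟩

/-- The set of limit points of a cofinal set is closed and unbounded (the least element is
included). -/
theorem isClub_acc (hα : ℵ₀ < cof α) {H : Set α} (hH : IsCofinal H) :
    IsClub {i : α | ∀ j < i, ∃ h ∈ H, j < h ∧ h < i} := by
  refine ⟨?_, ?_⟩
  · rw [dirSupClosed_iff_of_linearOrder]
    intro s hs _ x hx j hj
    obtain ⟨k, hk, hjk, hkx⟩ := hx.exists_between hj
    obtain ⟨h, hh1, hh2, hh3⟩ := hs hk j hjk
    exact ⟨h, hh1, hh2, hh3.trans_le hkx⟩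
  · intro j
    obtain ⟨ξ, h1, -, h2⟩ := exists_acc hα hH j
    exact ⟨ξ, h2, h1.le⟩

/-- Limit points of a closed unbounded set. -/
theorem mem_of_acc {C : Set α} (hC : IsClub C) {ξ : α} (hne : ∃ j, j < ξ)
    (h : ∀ j < ξ, ∃ c ∈ C, j < c ∧ c < ξ) : ξ ∈ C := by
  refine hC.isLUB_mem (t := {c ∈ C | c < ξ}) (fun c hc => hc.1) ?_ ⟨fun c hc => hc.2.le, fun b hb => ?_⟩
  · obtain ⟨j, hj⟩ := hne
    obtain ⟨c, hc1, -, hc2⟩ := h j hj
    exact ⟨c, hc1, hc2⟩
  · by_contra hcon
    obtain ⟨c, hc1, hc2, hc3⟩ := h b (not_le.1 hcon)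
    exact absurd (hb ⟨hc1, hc3⟩) (not_le.2 hc2)

/-- A closed unbounded subset of a well-order of uncountable cofinality has members of countable
cofinality above every point. -/
theorem exists_mem_club (hα : ℵ₀ < cof α) {C : Set α} (hC : IsClub C) (j : α) :
    ∃ ξ ∈ C, j < ξ ∧ cof (Iio ξ) = ℵ₀ := by
  obtain ⟨ξ, h1, h2, h3⟩ := exists_acc hα hC.isCofinal j
  exact ⟨ξ, mem_of_acc hC ⟨j, h1⟩ h3, h1, h2⟩

end general

section normal

variable {α : Type u} {β : Type v} [LinearOrder α] [WellFoundedLT α] [LinearOrder β]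

theorem exists_lub_preimage {f : α → β} (hf : IsNormal f) (hf' : IsCofinal (range f))
    {t : Set α} (ht : t.Nonempty) {x : β} (hx : IsLUB (f '' t) x) : ∃ i, IsLUB t i ∧ f i = x := by
  obtain ⟨_, ⟨j, rfl⟩, hj⟩ := hf' x
  have hb : BddAbove t := ⟨j, fun i hi => by
    have h1 : f i ≤ f j := (hx.1 ⟨i, hi, rfl⟩).trans hj
    exact hf.strictMono.le_iff_le.1 h1⟩
  obtain ⟨i, hi⟩ := exists_lub' hb
  exact ⟨i, hi, (hf.map_isLUB hi ht).unique hx⟩

/-- The image of a club under a normal function with cofinal range is a club. -/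
theorem isClub_image {f : α → β} (hf : IsNormal f) (hf' : IsCofinal (range f)) {C : Set α}
    (hC : IsClub C) : IsClub (f '' C) := by
  refine ⟨?_, ?_⟩
  · rw [dirSupClosed_iff_of_linearOrder]
    intro s hs hs' x hx
    let t : Set α := {i ∈ C | f i ∈ s}
    have hts : f '' t = s := by
      ext y
      constructor
      · rintro ⟨i, hi, rfl⟩
        exact hi.2
      · intro hy
        obtain ⟨i, hi, rfl⟩ := hs hy
        exact ⟨i, ⟨hi, hy⟩, rfl⟩
    have ht : t.Nonempty := by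
      rw [← hts] at hs'
      exact hs'.of_image
    obtain ⟨i, hi, rfl⟩ := exists_lub_preimage hf hf' ht (hts ▸ hx)
    exact ⟨i, hC.isLUB_mem (fun k hk => hk.1) ht hi, rfl⟩
  · intro b
    obtain ⟨_, ⟨j, rfl⟩, hj⟩ := hf' b
    obtain ⟨i, hi, hji⟩ := hC.isCofinal j
    exact ⟨f i, ⟨i, hi, rfl⟩, hj.trans (hf.strictMono.le_iff_le.2 hji)⟩

variable [WellFoundedLT β]

/-- The preimage of a club under a normal function with cofinal range is a club. -/
theorem isClub_preimage {f : α → β} (hf : IsNormal f) (hf' : IsCofinal (range f))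
    (hβ : cof β ≠ ℵ₀) {C : Set β} (hC : IsClub C) : IsClub (f ⁻¹' C) := by
  refine ⟨?_, ?_⟩
  · rw [dirSupClosed_iff_of_linearOrder]
    intro s hs hs' x hx
    refine hC.isLUB_mem (t := f '' s) ?_ (hs'.image f) (hf.map_isLUB hx hs')
    rintro _ ⟨i, hi, rfl⟩
    exact hs hi
  · intro j
    have h1 : IsClub (f '' univ ∩ C) := (isClub_image hf hf' .univ).inter hβ hC
    obtain ⟨_, ⟨⟨i, -, rfl⟩, h2⟩, h3⟩ := h1.isCofinal (f j)
    exact ⟨i, h2, hf.strictMono.le_iff_le.1 h3⟩

end normal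

section iso

variable {α : Type u} {β : Type v} [LinearOrder α] [LinearOrder β]

theorem isClub_image_iso (e : α ≃o β) {C : Set α} (hC : IsClub C) : IsClub (e '' C) := by
  refine ⟨?_, e.map_isCofinal hC.isCofinal⟩
  rw [dirSupClosed_iff_of_linearOrder]
  intro s hs hs' x hx
  refine ⟨e.symm x, hC.isLUB_mem (t := e.symm '' s) ?_ (hs'.image _) ?_, by simp⟩
  · rintro _ ⟨y, hy, rfl⟩
    obtain ⟨z, hz, rfl⟩ := hs hy
    simpa using hz
  · exact (OrderIso.isLUB_image' e.symm).2 hx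

theorem isStationary_image_iso (e : α ≃o β) {S : Set α} :
    IsStationary (e '' S) ↔ IsStationary S := by
  constructor
  · intro h C hC
    obtain ⟨_, ⟨x, hx, rfl⟩, ⟨y, hy, hxy⟩⟩ := h (isClub_image_iso e hC)
    rw [e.injective hxy] at hy
    exact ⟨x, hx, hy⟩
  · intro h C hC
    obtain ⟨x, hx, ⟨y, hy, hxy⟩⟩ := h (isClub_image_iso e.symm hC)
    refine ⟨e x, ⟨x, hx, rfl⟩, ?_⟩
    rw [← hxy]
    simpa using hy

end iso

end Run7.h478
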