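import Mathlib

set_option autoImplicit false

namespace Run7.h478

open Cardinal FirstOrder

/-- The transfer principle `(κ, lam) ↠ (δ, γ)`: for every first-order structure `M` of cardinality
`κ` in a countable language and every subset `B` of `M` of cardinality `lam` there is an elementary
substructure `X` of `M` with `|X| = δ` and `|X ∩ B| = γ`. -/
def ChangTransfer (κ lam δ γ : Cardinal.{0}) : Prop :=
  ∀ (L : FirstOrder.Language.{0, 0}) (M : Type) [L.Structure M], L.card ≤ ℵ₀ → #M = κ →
    ∀ B : Set M, #B = lam →
      ∃ X : L.ElementarySubstructure M, #X = δ ∧ #((X : Set M) ∩ B : Set M) = γ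

end Run7.h478
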