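import Mathlib

/-! Long chains of subsets of `ℕ` modulo finite sets from long chains of functions with values in
a small well-order. -/

set_option autoImplicit false

namespace Run7.h478

open Cardinal Set Filter

/-- The cardinal `lam` as a well-ordered set. -/
abbrev Idx (lam : Cardinal.{0}) : Type := lam.ord.ToType

/-- There is a strictly increasing sequence of length `lam` of subsets of `ℕ` modulo finite sets. -/
def HasChain (lam : Cardinal.{0}) : Prop :=
  ∃ A : Idx lam → Set ℕ, ∀ j i, j < i → (A j \ A i).Finite ∧ (A i \ A j).Infinite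

/-- Sets of size `< lam` are strictly bounded. -/
def BddSmall (lam : Cardinal.{0}) (J : Type) [LinearOrder J] : Prop :=
  ∀ s : Set J, #s < lam → ∃ b, ∀ x ∈ s, x < b

theorem mk_Iio_Idx {lam : Cardinal.{0}} (i : Idx lam) : #(Iio i) < lam := by
  simpa using mk_Iio_lt i

theorem bddSmall_Idx {lam : Cardinal.{0}} (hreg : lam.IsRegular) : BddSmall lam (Idx lam) := by
  intro s hs
  have h1 : Order.cof (Idx lam) = lam := by
    rw [Ordinal.cof_toType, hreg.cof_ord]
  have h2 : ¬ IsCofinal s := by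
    intro h
    have h3 := Order.cof_le h
    rw [h1] at h3
    exact absurd hs (not_lt.2 h3)
  rw [IsCofinal] at h2
  push Not at h2
  exact h2

section thin

variable {lam : Cardinal.{0}} {J : Type} [LinearOrder J]

omit [LinearOrder J] in
theorem small_insert_range (hω : ℵ₀ ≤ lam) (a : J) (i : Idx lam) (f : Iio i → J) :
    #(insert a (range f) : Set J) < lam := by
  refine mk_insert_le.trans_lt ?_
  exact add_lt_of_lt hω (mk_range_le.trans_lt (mk_Iio_Idx i)) (one_lt_aleph0.trans_le hω)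

theorem thin (hω : ℵ₀ ≤ lam) (hJ : BddSmall lam J) (φ : J → J) (a : J) :
    ∃ e : Idx lam → J, (∀ i, a < e i) ∧ ∀ j i, j < i → φ (e j) < e i := by
  let F : ∀ i : Idx lam, (∀ j, j < i → J) → J := fun i ih =>
    (hJ (insert a (range fun j : Iio i => φ (ih j.1 j.2))) (small_insert_range hω a i _)).choose
  let e : Idx lam → J := (wellFounded_lt (α := Idx lam)).fix F
  have he : ∀ i, e i = F i (fun j _ => e j) := fun i => WellFounded.fix_eq _ _ _
  refine ⟨e, fun i => ?_, fun j i hji => ?_⟩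
  · rw [he i]
    exact (hJ _ (small_insert_range hω a i (fun j : Iio i => φ (e j.1)))).choose_spec a
      (mem_insert _ _)
  · rw [he i]
    exact (hJ _ (small_insert_range hω a i (fun j : Iio i => φ (e j.1)))).choose_spec (φ (e j))
      (mem_insert_of_mem _ ⟨⟨j, hji⟩, rfl⟩)

theorem pair_finite (h : ℕ → ℕ) (N : ℕ) : {p : ℕ | p.unpair.1 < N ∧ p.unpair.2 < h p.unpair.1}.Finite := by
  have h1 : ((Finset.range N).sigma fun n => Finset.range (h n)).image
      (fun x => Nat.pair x.1 x.2) = ((Finset.range N).sigma fun n => Finset.range (h n)).image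
      (fun x => Nat.pair x.1 x.2) := rfl
  refine (Finset.finite_toSet (((Finset.range N).sigma fun n => Finset.range (h n)).image
      (fun x => Nat.pair x.1 x.2))).subset ?_
  rintro p ⟨h2, h3⟩
  simp only [Finset.coe_image, mem_image, Finset.mem_coe, Finset.mem_sigma, Finset.mem_range]
  exact ⟨⟨p.unpair.1, p.unpair.2⟩, ⟨h2, h3⟩, Nat.pair_unpair p⟩

theorem chain_of_inc (hω : ℵ₀ ≤ lam) (hJ : BddSmall lam J) (a : J) (h : J → ℕ → ℕ)
    (hinc : ∀ j k, a < j → j < k → ∀ᶠ n in atTop, h j n ≤ h k n)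
    (hns : ∀ j, a < j → ∃ k, j < k ∧ ¬ ∀ᶠ n in atTop, h j n = h k n) : HasChain lam := by
  classical
  have hns' : ∀ j, ∃ k, j < k ∧ (a < j → ¬ ∀ᶠ n in atTop, h j n = h k n) := by
    intro j
    by_cases hj : a < j
    · obtain ⟨k, h1, h2⟩ := hns j hj
      exact ⟨k, h1, fun _ => h2⟩
    · obtain ⟨b, hb⟩ := hJ {j} (by simpa using one_lt_aleph0.trans_le hω)
      exact ⟨b, hb j rfl, fun h => absurd h hj⟩
  choose φ hφ1 hφ2 using hns'
  obtain ⟨e, he1, he2⟩ := thin hω hJ φ a
  refine ⟨fun i => {p : ℕ | p.unpair.2 < h (e i) p.unpair.1}, fun j i hji => ⟨?_, ?_⟩⟩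
  · obtain ⟨N, hN⟩ := eventually_atTop.1 (hinc (e j) (e i) (he1 j) ((hφ1 _).trans (he2 j i hji)))
    refine (pair_finite (h (e j)) N).subset ?_
    rintro p ⟨h1, h2⟩
    simp only [mem_ofPred_eq, not_lt] at h1 h2
    refine ⟨?_, h1⟩
    by_contra hcon
    exact absurd ((hN _ (not_lt.1 hcon)).trans h2) (not_le.2 h1)
  · have h1 : ∃ᶠ n in atTop, h (e j) n < h (φ (e j)) n := by
      intro h2
      apply hφ2 (e j) (he1 j)
      filter_upwards [h2, hinc (e j) (φ (e j)) (he1 j) (hφ1 _)] with n h3 h4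
      exact le_antisymm h4 (not_lt.1 h3)
    have h2 : ∃ᶠ n in atTop, h (e j) n < h (e i) n := by
      refine (h1.and_eventually (hinc (φ (e j)) (e i) ((he1 j).trans (hφ1 _)) (he2 j i hji))).mono ?_
      rintro n ⟨h3, h4⟩
      exact h3.trans_le h4
    have h3 := Nat.frequently_atTop_iff_infinite.1 h2
    refine (h3.image (f := fun n => Nat.pair n (h (e j) n)) ?_).mono ?_
    · intro x _ y _ hxy
      exact (Nat.pair_eq_pair.1 hxy).1
    · rintro _ ⟨n, hn, rfl⟩
      simp only [mem_ofPred_eq] at hn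
      simp [hn]

theorem chain_of_dec (hω : ℵ₀ ≤ lam) (hJ : BddSmall lam J) (a : J) (h : J → ℕ → ℕ)
    (hinc : ∀ j k, a < j → j < k → ∀ᶠ n in atTop, h k n ≤ h j n)
    (hns : ∀ j, a < j → ∃ k, j < k ∧ ¬ ∀ᶠ n in atTop, h j n = h k n) : HasChain lam := by
  classical
  have hns' : ∀ j, ∃ k, j < k ∧ (a < j → ¬ ∀ᶠ n in atTop, h j n = h k n) := by
    intro j
    by_cases hj : a < j
    · obtain ⟨k, h1, h2⟩ := hns j hj
      exact ⟨k, h1, fun _ => h2⟩
    · obtain ⟨b, hb⟩ := hJ {j} (by simpa using one_lt_aleph0.trans_le hω)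
      exact ⟨b, hb j rfl, fun h => absurd h hj⟩
  choose φ hφ1 hφ2 using hns'
  obtain ⟨e, he1, he2⟩ := thin hω hJ φ a
  refine ⟨fun i => {p : ℕ | h (e i) p.unpair.1 ≤ p.unpair.2}, fun j i hji => ⟨?_, ?_⟩⟩
  · obtain ⟨N, hN⟩ := eventually_atTop.1 (hinc (e j) (e i) (he1 j) ((hφ1 _).trans (he2 j i hji)))
    refine (pair_finite (h (e i)) N).subset ?_
    rintro p ⟨h1, h2⟩
    simp only [mem_ofPred_eq, not_le] at h1 h2
    refine ⟨?_, h2⟩
    by_contra hcon
    exact absurd ((hN _ (not_lt.1 hcon)).trans h1) (not_le.2 h2)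
  · have h1 : ∃ᶠ n in atTop, h (φ (e j)) n < h (e j) n := by
      intro h2
      apply hφ2 (e j) (he1 j)
      filter_upwards [h2, hinc (e j) (φ (e j)) (he1 j) (hφ1 _)] with n h3 h4
      exact le_antisymm (not_lt.1 h3) h4
    have h2 : ∃ᶠ n in atTop, h (e i) n < h (e j) n := by
      refine (h1.and_eventually (hinc (φ (e j)) (e i) ((he1 j).trans (hφ1 _)) (he2 j i hji))).mono ?_
      rintro n ⟨h3, h4⟩
      exact h4.trans_lt h3
    have h3 := Nat.frequently_atTop_iff_infinite.1 h2
    refine (h3.image (f := fun n => Nat.pair n (h (e i) n)) ?_).mono ?_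
    · intro x _ y _ hxy
      exact (Nat.pair_eq_pair.1 hxy).1
    · rintro _ ⟨n, hn, rfl⟩
      simp only [mem_ofPred_eq] at hn
      simp [hn]

end thin

section sep

variable {S : Type} [LinearOrder S] (q : ℕ → S)

open Classical in
/-- The index of the first term of the sequence `q` which separates `x` and `y`. -/
noncomputable def sep (x y : S) : ℕ := if h : ∃ k, x ≤ q k ∧ q k < y then Nat.find h else 0

variable {q}

theorem sep_spec (hq : Function.Surjective q) {x y : S} (hxy : x < y) :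
    x ≤ q (sep q x y) ∧ q (sep q x y) < y := by
  classical
  have h : ∃ k, x ≤ q k ∧ q k < y := by
    obtain ⟨k, hk⟩ := hq x
    exact ⟨k, hk.ge, hk ▸ hxy⟩
  rw [sep, dif_pos h]
  exact Nat.find_spec h

theorem sep_le {x y : S} {k : ℕ} (h1 : x ≤ q k) (h2 : q k < y) : sep q x y ≤ k := by
  classical
  have h : ∃ k, x ≤ q k ∧ q k < y := ⟨k, h1, h2⟩
  rw [sep, dif_pos h]
  exact Nat.find_min' h ⟨h1, h2⟩

theorem sep_trans (hq : Function.Surjective q) {x y z : S} (hxy : x < y) (hyz : y < z) :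
    sep q x z = min (sep q x y) (sep q y z) := by
  apply le_antisymm
  · apply le_min
    · have h := sep_spec hq hxy
      exact sep_le h.1 (h.2.trans hyz)
    · have h := sep_spec hq hyz
      exact sep_le (hxy.le.trans h.1) h.2
  · have h := sep_spec hq (hxy.trans hyz)
    rcases lt_or_ge (q (sep q x z)) y with h1 | h1
    · exact (min_le_left _ _).trans (sep_le h.1 h1)
    · exact (min_le_right _ _).trans (sep_le h1 h.2)

end sep

/-- **Main lemma.** A long chain of functions from `ℕ` to a countable linear order, increasing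
modulo finite sets, gives an equally long chain of subsets of `ℕ` modulo finite sets. -/
theorem chain_of_countable {lam : Cardinal.{0}} (hω : ℵ₀ ≤ lam) {J : Type} [LinearOrder J]
    (hJ : BddSmall lam J) {S : Type} [LinearOrder S] [Countable S] (g : J → ℕ → S)
    (hg : ∀ i j, i < j → ∀ᶠ n in atTop, g i n < g j n) : HasChain lam := by
  classical
  by_contra hno
  obtain ⟨i₀, -⟩ := hJ ∅ (by simpa using aleph0_pos.trans_le hω)
  have hne : Nonempty S := ⟨g i₀ 0⟩
  obtain ⟨q, hq⟩ := exists_surjective_nat S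
  let L : J → J → ℕ → ℕ := fun i k n => sep q (g i n) (g k n)
  have hL : ∀ i j k, i < j → j < k → ∀ᶠ n in atTop, L i k n = min (L i j n) (L j k n) := by
    intro i j k hij hjk
    filter_upwards [hg i j hij, hg j k hjk] with n h1 h2
    exact sep_trans hq h1 h2
  -- step 1
  have h1 : ∀ i, ∃ k₀, i < k₀ ∧ ∀ k, k₀ < k → ∀ᶠ n in atTop, L i k₀ n = L i k n := by
    intro i
    by_contra hcon
    push Not at hcon
    apply hno
    refine chain_of_dec hω hJ i (L i) ?_ ?_
    · intro j k hij hjk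
      filter_upwards [hL i j k hij hjk] with n hn
      rw [hn]
      exact min_le_left _ _
    · intro j hij
      obtain ⟨k, hk1, hk2⟩ := hcon j hij
      refine ⟨k, hk1, fun h => ?_⟩
      exact hk2 (h.mono fun n hn => not_not.2 hn)
  choose κ hκ1 hκ2 using h1
  -- the limit functions
  let M : J → ℕ → ℕ := fun i => L i (κ i)
  have hM : ∀ i k, κ i < k → ∀ᶠ n in atTop, L i k n = M i n := fun i k hk =>
    (hκ2 i k hk).mono fun n hn => hn.symm
  have hMinc : ∀ i j, i < j → ∀ᶠ n in atTop, M i n ≤ M j n := by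
    intro i j hij
    obtain ⟨k, hk⟩ := hJ {κ i, κ j} ((lt_aleph0_iff_set_finite.2 (Set.toFinite _)).trans_le hω)
    have hki : κ i < k := hk _ (by simp)
    have hkj : κ j < k := hk _ (by simp)
    filter_upwards [hM i k hki, hM j k hkj, hL i j k hij ((hκ1 j).trans hkj)] with n h2 h3 h4
    rw [← h2, h4, ← h3]
    exact min_le_right _ _
  -- step 2: stabilisation of `M`
  have h2 : ∃ i₁, ∀ i, i₁ < i → ∀ᶠ n in atTop, M i₁ n = M i n := by
    by_contra hcon
    push Not at hcon
    apply hno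
    refine chain_of_inc hω hJ i₀ M (fun j k _ hjk => hMinc j k hjk) ?_
    intro j _
    obtain ⟨k, hk1, hk2⟩ := hcon j
    exact ⟨k, hk1, fun h => hk2 (h.mono fun n hn => not_not.2 hn)⟩
  obtain ⟨i₁, hi₁⟩ := h2
  obtain ⟨i, hi⟩ := hJ {i₁} ((lt_aleph0_iff_set_finite.2 (Set.toFinite _)).trans_le hω)
  obtain ⟨j, hj⟩ := hJ {κ i} ((lt_aleph0_iff_set_finite.2 (Set.toFinite _)).trans_le hω)
  obtain ⟨k, hk⟩ := hJ {κ j} ((lt_aleph0_iff_set_finite.2 (Set.toFinite _)).trans_le hω)
  have hi1 : i₁ < i := hi _ rfl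
  have hij : κ i < j := hj _ rfl
  have hjk : κ j < k := hk _ rfl
  have hij' : i < j := (hκ1 i).trans hij
  have hjk' : j < k := (hκ1 j).trans hjk
  obtain ⟨n, h3, h4, h5, h6, h7, h8⟩ := ((hM i j hij).and ((hM j k hjk).and ((hi₁ i hi1).and
    ((hi₁ j (hi1.trans hij')).and ((hg i j hij').and (hg j k hjk')))))).exists
  have h9 : (q (M i₁ n)) < g j n := by
    rw [h5, ← h3]
    exact (sep_spec hq h7).2
  have h10 : g j n ≤ q (M i₁ n) := by
    rw [h6, ← h4]
    exact (sep_spec hq h8).1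
  exact absurd h9 (not_lt.2 h10)

end Run7.h478
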