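import Mathlib
import Pool.Agent.Run7.h478.Chain

/-! Pigeonhole arguments and increasing sequences of functions below a cardinal of countable
cofinality. -/

set_option autoImplicit false

namespace Run7.h478

open Cardinal Set Filter

theorem isRegular_aleph_nat (m : ℕ) : (ℵ_ ((m : Ordinal.{0}) + 1)).IsRegular :=
  isRegular_aleph_add_one _

theorem lt_aleph_succ_iff {c : Cardinal.{0}} {o : Ordinal.{0}} : c < ℵ_ (o + 1) ↔ c ≤ ℵ_ o := by
  rw [← succ_aleph, Order.lt_succ_iff]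

/-- Many functions from `ℕ` to a set of size at most `ℵ_m` take all their values in one countable
set. -/
theorem exists_countable {Ω I : Type} (m : ℕ) (g : I → ℕ → Ω) : ∀ k ≤ m, ∀ Z : Set Ω,
    #Z ≤ ℵ_ (k : Ordinal.{0}) → ∀ H : Set I, #H = ℵ_ ((m : Ordinal.{0}) + 1) →
    (∀ i ∈ H, ∀ n, g i n ∈ Z) →
    ∃ S ⊆ Z, S.Countable ∧ ∃ H' ⊆ H, #H' = ℵ_ ((m : Ordinal.{0}) + 1) ∧
      ∀ i ∈ H', ∀ n, g i n ∈ S := by
  intro k
  induction k with
  | zero =>
    intro _ Z hZ H hH hg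
    refine ⟨Z, Subset.rfl, ?_, H, Subset.rfl, hH, hg⟩
    simpa using hZ
  | succ k ih =>
    intro hk Z hZ H hH hg
    push_cast at hZ
    have hreg := isRegular_aleph_nat k
    have h1 : #Z ≤ #(Idx (ℵ_ ((k : Ordinal.{0}) + 1))) := by
      rw [mk_ord_toType]
      exact hZ
    obtain ⟨f⟩ := (Cardinal.le_def _ _).1 h1
    have h2 : ∀ i : H, ∃ b, ∀ n, f ⟨g i.1 n, hg i.1 i.2 n⟩ < b := by
      intro i
      obtain ⟨b, hb⟩ := bddSmall_Idx hreg (range fun n => f ⟨g i.1 n, hg i.1 i.2 n⟩) (by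
        refine lt_of_le_of_lt (b := ℵ₀) ?_ ?_
        · rw [Cardinal.mk_le_aleph0_iff, Set.countable_coe_iff]
          exact countable_range _
        · rw [lt_aleph_succ_iff]
          exact aleph0_le_aleph _)
      exact ⟨b, fun n => hb _ ⟨n, rfl⟩⟩
    choose b hb using h2
    have h3 : #(Idx (ℵ_ ((k : Ordinal.{0}) + 1))) < (#H).ord.cof := by
      rw [hH, (isRegular_aleph_nat m).cof_ord, mk_ord_toType, aleph_lt_aleph]
      have : ((k + 1 : ℕ) : Ordinal.{0}) < ((m + 1 : ℕ) : Ordinal.{0}) := by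
        exact_mod_cast (by omega : k + 1 < m + 1)
      push_cast at this
      exact this
    obtain ⟨c, hc⟩ := infinite_pigeonhole b (by rw [hH]; exact aleph0_le_aleph _) h3
    rw [hH] at hc
    obtain ⟨S, hS1, hS2, H', hH'1, hH'2, hH'3⟩ := ih (by omega) {z | ∃ h : z ∈ Z, f ⟨z, h⟩ < c} (by
        rw [← lt_aleph_succ_iff]
        refine lt_of_le_of_lt ?_ (mk_Iio_Idx c)
        refine Cardinal.mk_le_of_injective
          (f := fun z : {z | ∃ h : z ∈ Z, f ⟨z, h⟩ < c} => (⟨f ⟨z.1, z.2.1⟩, z.2.2⟩ : Iio c)) ?_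
        intro x y hxy
        have h4 := f.injective (congrArg Subtype.val hxy)
        exact Subtype.ext (Subtype.mk.inj h4)) (Subtype.val '' (b ⁻¹' {c})) (by
        rw [mk_image_eq Subtype.val_injective, hc]) (by
        rintro _ ⟨i, hi, rfl⟩ n
        refine ⟨hg i.1 i.2 n, ?_⟩
        have h4 : b i = c := hi
        rw [← h4]
        exact hb i n)
    refine ⟨S, hS1.trans ?_, hS2, H', hH'1.trans ?_, hH'2, hH'3⟩
    · rintro z ⟨h, _⟩
      exact h
    · rintro _ ⟨i, _, rfl⟩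
      exact i.2

/-- A subset of full size of a regular cardinal inherits boundedness of small sets. -/
theorem bddSmall_sub {lam : Cardinal.{0}} (hreg : lam.IsRegular) {H : Set (Idx lam)}
    (hH : #H = lam) : BddSmall lam H := by
  intro s hs
  obtain ⟨b, hb⟩ := bddSmall_Idx hreg (Subtype.val '' s) (mk_image_le.trans_lt hs)
  have h1 : ∃ c ∈ H, b < c := by
    by_contra hcon
    push Not at hcon
    have h2 : H ⊆ insert b (Iio b) := by
      intro c hc
      rcases (hcon c hc).eq_or_lt with h | h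
      · exact Or.inl h
      · exact Or.inr h
    have h3 : #H < lam := by
      refine (mk_le_mk_of_subset h2).trans_lt (mk_insert_le.trans_lt ?_)
      exact add_lt_of_lt hreg.aleph0_le (mk_Iio_Idx b) (one_lt_aleph0.trans_le hreg.aleph0_le)
    exact absurd hH h3.ne
  obtain ⟨c, hc, hbc⟩ := h1
  exact ⟨⟨c, hc⟩, fun x hx => (hb x.1 ⟨x, hx, rfl⟩).trans hbc⟩

section seq

variable {μ : Cardinal.{0}}

/-- Increasing sequences of functions in a product of regular cardinals below `μ`. -/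
theorem exists_seq (ν : ℕ → Cardinal.{0}) (hν : ∀ n, ν n < μ) (hν' : ∀ n, ℵ₀ ≤ ν n)
    (Q : Idx (Order.succ μ) → ℕ → Set (Idx (Order.succ μ)))
    (hQ1 : ∀ α n, ∀ β ∈ Q α n, β < α) (hQ2 : ∀ α n, #(Q α n) ≤ ν n) :
    ∃ f : Idx (Order.succ μ) → ℕ → Idx μ, ∀ α n, ∀ β ∈ Q α n, f β n < f α n := by
  let G : ∀ α : Idx (Order.succ μ), (∀ β, β < α → ℕ → Ordinal.{0}) → ℕ → Ordinal.{0} :=
    fun α ih n => ⨆ β : Q α n, Order.succ (ih β.1 (hQ1 α n β.1 β.2) n)
  let F : Idx (Order.succ μ) → ℕ → Ordinal.{0} := (wellFounded_lt (α := Idx (Order.succ μ))).fix G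
  have hF : ∀ α, F α = G α (fun β _ => F β) := fun α => WellFounded.fix_eq _ _ _
  have hlim : ∀ n, Order.IsSuccLimit (Order.succ (ν n)).ord := fun n =>
    Cardinal.isSuccLimit_ord ((hν' n).trans (Order.le_succ _))
  have hFlt : ∀ α n, F α n < (Order.succ (ν n)).ord := by
    intro α
    induction α using WellFoundedLT.induction with
    | ind α ih =>
      intro n
      rw [hF α]
      refine Ordinal.iSup_lt_of_lt_cof ?_ ?_
      · rw [(isRegular_succ (hν' n)).cof_ord, Order.lt_succ_iff]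
        exact hQ2 α n
      · intro β
        exact (hlim n).succ_lt (ih β.1 (hQ1 α n β.1 β.2) n)
  have hFμ : ∀ α n, F α n < μ.ord := fun α n =>
    (hFlt α n).trans_le (ord_le_ord.2 (Order.succ_le_of_lt (hν n)))
  refine ⟨fun α n => Ordinal.ToType.mk ⟨F α n, hFμ α n⟩, fun α n β hβ => ?_⟩
  rw [OrderIso.lt_iff_lt]
  change F β n < F α n
  rw [hF α]
  refine lt_of_lt_of_le (Order.lt_succ _) ?_
  exact Ordinal.le_iSup (fun β : Q α n => Order.succ (F β.1 n)) ⟨β, hβ⟩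

theorem mk_Iio_le_succ (x : Idx (Order.succ μ)) : #(Iio x) ≤ μ :=
  Order.lt_succ_iff.1 (mk_Iio_Idx x)

/-- `μ` is the union of an increasing sequence of initial segments. -/
theorem exists_cof_seq (hcof : μ.ord.cof = ℵ₀) :
    ∃ t : ℕ → Idx μ, Monotone t ∧ ∀ v, ∃ n, v ≤ t n := by
  obtain ⟨S, hS, hS2⟩ := Order.exists_cof_eq (Idx μ)
  rw [Ordinal.cof_toType, hcof] at hS2
  obtain ⟨e⟩ : Nonempty (ℕ ≃ S) := by
    rw [← Cardinal.eq, hS2, mk_nat]
  refine ⟨fun n => partialSups (fun k => (e k).1) n, (partialSups _).monotone, fun v => ?_⟩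
  obtain ⟨w, hw, h⟩ := hS v
  refine ⟨e.symm ⟨w, hw⟩, h.trans ?_⟩
  have := le_partialSups (fun k => (e k).1) (e.symm ⟨w, hw⟩)
  simpa using this

/-- Every initial segment of `μ⁺` is the union of an increasing sequence of small sets. -/
theorem exists_pieces (hμ : ℵ₀ ≤ μ) (hcof : μ.ord.cof = ℵ₀) (hμ' : ℵ₀ < μ) :
    ∃ (ν : ℕ → Cardinal.{0}) (P : Idx (Order.succ μ) → ℕ → Set (Idx (Order.succ μ))),
      (∀ n, ν n < μ) ∧ (∀ n, ℵ₀ ≤ ν n) ∧ (∀ c < μ, ∃ n, ∀ m, n ≤ m → c ≤ ν m) ∧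
      (∀ α n, ∀ β ∈ P α n, β < α) ∧ (∀ α n, #(P α n) ≤ ν n) ∧
      (∀ α β, β < α → ∃ n, ∀ m, n ≤ m → β ∈ P α m) := by
  classical
  obtain ⟨t, ht1, ht2⟩ := exists_cof_seq hcof
  have h1 : ∀ α : Idx (Order.succ μ), Nonempty (Iio α ↪ Idx μ) := by
    intro α
    rw [← Cardinal.le_def, mk_ord_toType]
    exact mk_Iio_le_succ α
  let ι : ∀ α : Idx (Order.succ μ), Iio α ↪ Idx μ := fun α => (h1 α).some
  have hIic : ∀ v : Idx μ, #(Iic v) < μ := by
    intro v
    rw [← Iio_insert]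
    exact mk_insert_le.trans_lt (add_lt_of_lt hμ (mk_Iio_Idx v) (one_lt_aleph0.trans_le hμ))
  refine ⟨fun n => max ℵ₀ #(Iic (t n)), fun α n => {β | ∃ h : β < α, ι α ⟨β, h⟩ ≤ t n},
    fun n => max_lt hμ' (hIic _), fun n => le_max_left _ _, ?_, ?_, ?_, ?_⟩
  · intro c hc
    have hc' : c.ord < μ.ord := ord_lt_ord.2 hc
    obtain ⟨n, hn⟩ := ht2 (Ordinal.ToType.mk ⟨c.ord, hc'⟩)
    refine ⟨n, fun m hm => le_max_of_le_right ?_⟩
    have h2 : (Ordinal.ToType.mk ⟨c.ord, hc'⟩ : Idx μ) ≤ t m := hn.trans (ht1 hm)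
    refine le_trans ?_ (mk_le_mk_of_subset (Iic_subset_Iic.2 h2))
    have h3 : #(Idx c) ≤ #(Iic (Ordinal.ToType.mk ⟨c.ord, hc'⟩ : Idx μ)) := by
      refine Cardinal.mk_le_of_injective (f := fun x : Idx c =>
        (⟨Ordinal.ToType.mk ⟨(Ordinal.ToType.toOrd x).1, lt_trans (mem_Iio.1 (Ordinal.ToType.toOrd x).2) hc'⟩, ?_⟩ :
          Iic (Ordinal.ToType.mk ⟨c.ord, hc'⟩ : Idx μ))) ?_
      · rw [mem_Iic, OrderIso.le_iff_le]
        exact (Ordinal.ToType.toOrd x).2.le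
      · intro x y hxy
        have h4 := congrArg Subtype.val hxy
        simp only [EmbeddingLike.apply_eq_iff_eq, Subtype.mk.injEq] at h4
        have h5 : Ordinal.ToType.toOrd x = Ordinal.ToType.toOrd y := Subtype.ext h4
        exact (Ordinal.ToType.mk (o := c.ord)).symm.injective h5
    rwa [mk_ord_toType] at h3
  · rintro α n β ⟨h, _⟩
    exact h
  · intro α n
    refine le_max_of_le_right ?_
    refine Cardinal.mk_le_of_injective
      (f := fun β : {β | ∃ h : β < α, ι α ⟨β, h⟩ ≤ t n} => (⟨ι α ⟨β.1, β.2.1⟩, β.2.2⟩ : Iic (t n))) ?_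
    intro x y hxy
    have h4 := (ι α).injective (congrArg Subtype.val hxy)
    exact Subtype.ext (Subtype.mk.inj h4)
  · intro α β h
    obtain ⟨n, hn⟩ := ht2 (ι α ⟨β, h⟩)
    exact ⟨n, fun m hm => ⟨h, hn.trans (ht1 hm)⟩⟩

end seq

end Run7.h478
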