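import Mathlib
import Pool.Agent.Run7.h478.Pigeon

/-! Small closed cofinal sets in initial segments of `μ⁺`, for `μ` of countable cofinality. -/

set_option autoImplicit false

namespace Run7.h478

open Cardinal Set Filter

theorem exists_lub_of_bdd {α : Type} [LinearOrder α] [WellFoundedLT α] {s : Set α}
    (h : BddAbove s) : ∃ x, IsLUB s x := by
  obtain ⟨b, hb⟩ := h
  have h1 : (upperBounds s).Nonempty := ⟨b, hb⟩
  refine ⟨wellFounded_lt.min (upperBounds s) h1, wellFounded_lt.min_mem _ h1, fun y hy => ?_⟩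
  exact not_lt.1 (wellFounded_lt.not_lt_min (upperBounds s) hy)

theorem exists_closed_cofinal {α : Type} [LinearOrder α] [WellFoundedLT α] (β : α) :
    ∃ E : Set α, (∀ ε ∈ E, ε < β) ∧ (∀ a < β, ∃ ε ∈ E, a ≤ ε) ∧
      (∀ s ⊆ E, s.Nonempty → ∀ x, IsLUB s x → x < β → x ∈ E) ∧
      #E ≤ Order.cof (Iio β) + 1 := by
  classical
  obtain ⟨C₀, hC1, hC2⟩ := Order.exists_cof_eq (Iio β)
  let C : Set α := Subtype.val '' C₀
  have hC3 : ∀ c ∈ C, c < β := by
    rintro _ ⟨c, -, rfl⟩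
    exact c.2
  let E : Set α := {x | x < β ∧ ∃ s ⊆ C, s.Nonempty ∧ IsLUB s x}
  refine ⟨E, fun x hx => hx.1, ?_, ?_, ?_⟩
  · intro a ha
    obtain ⟨c, hc, h⟩ := hC1 ⟨a, ha⟩
    exact ⟨c.1, ⟨c.2, {c.1}, singleton_subset_iff.2 ⟨c, hc, rfl⟩, singleton_nonempty _,
      isLUB_singleton⟩, h⟩
  · intro s hs hs' x hx hxβ
    refine ⟨hxβ, {c ∈ C | c ≤ x}, fun c hc => hc.1, ?_, fun c hc => hc.2, fun y hy => ?_⟩
    · obtain ⟨z, hz⟩ := hs'
      obtain ⟨-, u, hu1, ⟨c, hc⟩, hu3⟩ := hs hz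
      exact ⟨c, hu1 hc, (hu3.1 hc).trans (hx.1 hz)⟩
    · refine hx.2 fun z hz => ?_
      obtain ⟨-, u, hu1, -, hu3⟩ := hs hz
      exact hu3.2 fun c hc => hy ⟨hu1 hc, (hu3.1 hc).trans (hx.1 hz)⟩
  · have h1 : #E ≤ #(Option C₀) := by
      let nx : E → Option C₀ := fun x =>
        if h : ({c ∈ C₀ | x.1 < c.1}).Nonempty then
          some ⟨wellFounded_lt.min _ h, (wellFounded_lt.min_mem _ h).1⟩ else none
      refine Cardinal.mk_le_of_injective (f := nx) ?_
      have key : ∀ x y : E, x.1 < y.1 → nx x ≠ nx y := by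
        intro x y hxy
        -- there is an element of `C` in `(x, y]`
        obtain ⟨-, u, hu1, hu2, hu3⟩ := y.2
        have h2 : ∃ c ∈ u, x.1 < c := by
          by_contra hcon
          push Not at hcon
          exact absurd hxy (not_lt.2 (hu3.2 hcon))
        obtain ⟨c, hc1, hc2⟩ := h2
        obtain ⟨c', hc', rfl⟩ := hu1 hc1
        have h3 : ({c ∈ C₀ | x.1 < c.1}).Nonempty := ⟨c', hc', hc2⟩
        simp only [nx, dif_pos h3]
        split_ifs with h4
        · intro h5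
          have h6 := congrArg (fun z : C₀ => (z.1 : Iio β)) (Option.some.inj h5)
          simp only at h6
          have h7 := (wellFounded_lt.min_mem _ h4).2
          rw [← h6] at h7
          have h8 := not_lt.1 (wellFounded_lt.not_lt_min {c ∈ C₀ | x.1 < c.1} ⟨hc', hc2⟩)
          exact absurd (lt_of_lt_of_le h7 (le_trans h8 (hu3.1 hc1))) (lt_irrefl _)
        · simp
      intro x y hxy
      rcases lt_trichotomy x.1 y.1 with h | h | h
      · exact absurd hxy (key _ _ h)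
      · exact Subtype.ext h
      · exact absurd hxy.symm (key _ _ h)
    rwa [mk_option, hC2] at h1

/-- Every initial segment of `μ⁺` has a closed cofinal subset of size less than `μ`, if `μ` is
uncountable of countable cofinality. -/
theorem exists_club_small {μ : Cardinal.{0}} (hμ : ℵ₀ < μ) (hcof : μ.ord.cof = ℵ₀)
    (β : Idx (Order.succ μ)) : ∃ E : Set (Idx (Order.succ μ)), (∀ ε ∈ E, ε < β) ∧
      (∀ a < β, ∃ ε ∈ E, a ≤ ε) ∧
      (∀ s ⊆ E, s.Nonempty → ∀ x, IsLUB s x → x < β → x ∈ E) ∧ #E < μ := by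
  obtain ⟨E, h1, h2, h3, h4⟩ := exists_closed_cofinal β
  refine ⟨E, h1, h2, h3, h4.trans_lt (add_lt_of_lt hμ.le ?_ (one_lt_aleph0.trans hμ))⟩
  refine lt_of_le_of_ne ((Order.cof_le_cardinalMk _).trans (mk_Iio_le_succ β)) ?_
  intro h5
  have h6 := Order.cof_ord_cof (Iio β)
  rw [h5, hcof] at h6
  exact absurd h6 hμ.ne

end Run7.h478
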