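import Mathlib
import Pool.Agent.Run7.h478.Defs
import Pool.Agent.Run7.h478.SmallClub

/-! From the transfer principle `(μ⁺, μ) ↠ (ℵ_{m+1}, ℵ_m)` to long increasing sequences of functions
from `ω` to a countable linear order which are dominated on clubs at every limit. -/

set_option autoImplicit false

namespace Run7.h478

open Cardinal Set Filter FirstOrder

/-- The function symbols: countably many unary ones and two binary ones. -/
inductive FnB : ℕ → Type
  | f (n : ℕ) : FnB 1
  | s : FnB 2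
  | t : FnB 2

/-- The language with countably many unary function symbols and two binary ones. -/
def LB : FirstOrder.Language.{0, 0} := ⟨FnB, fun _ => Empty⟩

theorem card_LB : LB.card ≤ ℵ₀ := by
  have h1 : Countable LB.Symbols := by
    have h2 : Function.Injective (fun s : LB.Symbols => (match s with
      | Sum.inl ⟨_, FnB.f n⟩ => n + 2
      | Sum.inl ⟨_, FnB.s⟩ => 0
      | Sum.inl ⟨_, FnB.t⟩ => 1 : ℕ)) := by
      rintro (⟨a, (⟨n⟩ | _ | _)⟩ | ⟨a, x⟩) (⟨b, (⟨m⟩ | _ | _)⟩ | ⟨b, y⟩) h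
      all_goals first
        | rfl
        | exact x.elim
        | exact y.elim
        | skip
      · have : n = m := by
          have h' : n + 2 = m + 2 := h
          omega
        subst this
        rfl
      · have h' : n + 2 = 0 := h
        omega
      · have h' : n + 2 = 1 := h
        omega
      · have h' : 0 = m + 2 := h
        omega
      · have h' : (0 : ℕ) = 1 := h
        omega
      · have h' : 1 = m + 2 := h
        omega
      · have h' : (1 : ℕ) = 0 := h
        omega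
    exact h2.countable
  exact Cardinal.mk_le_aleph0_iff.2 h1

/-- The structure given by countably many unary functions and two binary ones. -/
@[reducible]
def strLB {M : Type} (F : ℕ → M → M) (s t : M → M → M) : LB.Structure M where
  funMap := fun {_} c v => match c with
    | FnB.f n => F n (v 0)
    | FnB.s => s (v 0) (v 1)
    | FnB.t => t (v 0) (v 1)
  RelMap := fun {_} r _ => Empty.elim r

theorem closed_LB {M : Type} (F : ℕ → M → M) (s t : M → M → M)
    (X : @FirstOrder.Language.ElementarySubstructure LB M (strLB F s t)) :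
    (∀ (n : ℕ) (x : M), x ∈ X → F n x ∈ X) ∧
    (∀ x y : M, x ∈ X → y ∈ X → s x y ∈ X) ∧ (∀ x y : M, x ∈ X → y ∈ X → t x y ∈ X) := by
  let := strLB F s t
  refine ⟨fun n x hx => ?_, fun x y hx hy => ?_, fun x y hx hy => ?_⟩
  · exact X.toSubstructure.fun_mem (FnB.f n : LB.Functions 1) (fun _ => x) (fun _ => hx)
  · exact X.toSubstructure.fun_mem (FnB.s : LB.Functions 2) ![x, y] (fun i => by
      fin_cases i
      · exact hx
      · exact hy)
  · exact X.toSubstructure.fun_mem (FnB.t : LB.Functions 2) ![x, y] (fun i => by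
      fin_cases i
      · exact hx
      · exact hy)

/-- There is a sequence of length `κ` of functions from `ω` to a countable linear order which is
increasing modulo finite sets, strictly along a set of size `κ`, and such that every member
bounds, almost everywhere and uniformly, a club of the previous ones. -/
def HasCU (κ : Cardinal.{0}) : Prop :=
  ∃ (W : Type) (_ : LinearOrder W) (g : Idx κ → ℕ → W) (H : Set (Idx κ))
    (C : ∀ δ : Idx κ, Set (Iio δ)),
    Countable W ∧ #H = κ ∧ (∀ i j, i < j → ∀ᶠ n in atTop, g i n ≤ g j n) ∧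
    (∀ i ∈ H, ∀ j ∈ H, i < j → ∀ᶠ n in atTop, g i n < g j n) ∧
    (∀ δ, ℵ₀ < Order.cof (Iio δ) → IsClub (C δ)) ∧
    (∀ δ, ∀ᶠ n in atTop, ∀ i ∈ C δ, g i.1 n ≤ g δ n)

open Classical in
/-- The projection of a well-order to a subset: the least element of the subset above. -/
noncomputable def proj {α : Type} [LinearOrder α] [WellFoundedLT α] (S : Set α) (x : α) :
    WithTop S :=
  if h : {y : S | x ≤ y.1}.Nonempty then ((wellFounded_lt.min _ h : S) : WithTop S) else ⊤

theorem proj_mono {α : Type} [LinearOrder α] [WellFoundedLT α] (S : Set α) {x y : α}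
    (hxy : x ≤ y) : proj S x ≤ proj S y := by
  classical
  unfold proj
  split_ifs with h1 h2 h2
  · rw [WithTop.coe_le_coe]
    exact not_lt.1 (wellFounded_lt.not_lt_min {z : S | x ≤ z.1}
      (hxy.trans (wellFounded_lt.min_mem _ h2)))
  · exact le_top
  · obtain ⟨z, hz⟩ := h2
    exact absurd ⟨z, hxy.trans hz⟩ h1
  · exact le_top

theorem proj_mem {α : Type} [LinearOrder α] [WellFoundedLT α] (S : Set α) {x : α}
    (hx : x ∈ S) : proj S x = ((⟨x, hx⟩ : S) : WithTop S) := by
  classical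
  unfold proj
  have h : {y : S | x ≤ y.1}.Nonempty := ⟨⟨x, hx⟩, le_rfl⟩
  rw [dif_pos h, WithTop.coe_inj]
  apply le_antisymm
  · exact not_lt.1 (wellFounded_lt.not_lt_min {z : S | x ≤ z.1} (le_refl x : (⟨x, hx⟩ : S) ∈ _))
  · exact wellFounded_lt.min_mem _ h

theorem mainB (μ : Cardinal.{0}) (hμ : ℵ₀ < μ) (hcof : μ.ord.cof = ℵ₀) (m : ℕ)
    (h : ChangTransfer (Order.succ μ) μ (ℵ_ ((m : Ordinal.{0}) + 1)) (ℵ_ (m : Ordinal.{0}))) :
    HasCU (ℵ_ ((m : Ordinal.{0}) + 1)) := by
  classical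
  obtain ⟨ν, P, hν1, hν2, hν3, hP1, hP2, hP3⟩ := exists_pieces hμ.le hcof hμ
  choose E hE1 hE2 hE3 hE4 using fun β => exists_club_small (μ := μ) hμ hcof β
  let Q : Idx (Order.succ μ) → ℕ → Set (Idx (Order.succ μ)) :=
    fun α n => P α n ∪ (if #(E α) ≤ ν n then E α else ∅)
  have hQ1 : ∀ α n, ∀ β ∈ Q α n, β < α := by
    rintro α n β (hβ | hβ)
    · exact hP1 α n β hβ
    · split_ifs at hβ
      · exact hE1 α β hβ
      · exact absurd hβ (notMem_empty _)
  have hQ2 : ∀ α n, #(Q α n) ≤ ν n := by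
    intro α n
    refine (mk_union_le _ _).trans ?_
    refine (add_le_add (hP2 α n) (?_ : _ ≤ ν n)).trans (add_eq_self (hν2 n)).le
    split_ifs with h1
    · exact h1
    · simp
  obtain ⟨f, hf⟩ := exists_seq ν hν1 hν2 Q hQ1 hQ2
  have hf1 : ∀ α β, β < α → ∀ᶠ n in atTop, f β n < f α n := by
    intro α β hβ
    obtain ⟨N, hN⟩ := hP3 α β hβ
    filter_upwards [eventually_ge_atTop N] with n hn
    exact hf α n β (Or.inl (hN n hn))
  have hf2 : ∀ α, ∀ᶠ n in atTop, ∀ β ∈ E α, f β n < f α n := by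
    intro α
    obtain ⟨N, hN⟩ := hν3 _ (hE4 α)
    filter_upwards [eventually_ge_atTop N] with n hn β hβ
    refine hf α n β (Or.inr ?_)
    rw [if_pos (hN n hn)]
    exact hβ
  -- the two binary functions
  have hs : ∀ a β : Idx (Order.succ μ), ∃ ε, a < β → IsLeast {ε ∈ E β | a ≤ ε} ε := by
    intro a β
    by_cases hab : a < β
    · obtain ⟨ε, h1, h2⟩ := hE2 β a hab
      have hne : {ε ∈ E β | a ≤ ε}.Nonempty := ⟨ε, h1, h2⟩
      exact ⟨wellFounded_lt.min _ hne, fun _ => ⟨wellFounded_lt.min_mem _ hne, fun y hy =>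
        not_lt.1 (wellFounded_lt.not_lt_min {ε ∈ E β | a ≤ ε} hy)⟩⟩
    · exact ⟨a, fun h => absurd h hab⟩
  choose s hs using hs
  have ht : ∀ a β : Idx (Order.succ μ), ∃ ε, a < β → (∃ x ∈ E β, x ≤ a) →
      IsGreatest {ε ∈ E β | ε ≤ a} ε := by
    intro a β
    by_cases hab : a < β ∧ (∃ x ∈ E β, x ≤ a)
    · obtain ⟨hab, x, hx1, hx2⟩ := hab
      obtain ⟨y, hy⟩ := exists_lub_of_bdd (s := {ε ∈ E β | ε ≤ a}) ⟨a, fun z hz => hz.2⟩
      have hya : y ≤ a := hy.2 fun z hz => hz.2
      exact ⟨y, fun _ _ => ⟨⟨hE3 β {ε ∈ E β | ε ≤ a} (fun z hz => hz.1) ⟨x, hx1, hx2⟩ y hy (hya.trans_lt hab), hya⟩,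
        hy.1⟩⟩
    · exact ⟨a, fun h h' => absurd ⟨h, h'⟩ hab⟩
  choose t ht using ht
  let M : Type := Idx (Order.succ μ) ⊕ Idx μ
  let F : ℕ → M → M := fun n x => match x with
    | Sum.inl α => Sum.inr (f α n)
    | Sum.inr v => Sum.inr v
  let s' : M → M → M := fun x y => match x, y with
    | Sum.inl a, Sum.inl b => Sum.inl (s a b)
    | z, _ => z
  let t' : M → M → M := fun x y => match x, y with
    | Sum.inl a, Sum.inl b => Sum.inl (t a b)
    | z, _ => z
  let B : Set M := range Sum.inr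
  have hM : #M = Order.succ μ := by
    rw [mk_sum, lift_id, lift_id, mk_ord_toType, mk_ord_toType]
    exact add_eq_left (hμ.le.trans (Order.le_succ μ)) (Order.le_succ μ)
  have hB : #B = μ := by
    rw [mk_range_eq _ Sum.inr_injective, mk_ord_toType]
  let := strLB F s' t'
  obtain ⟨X, hX1, hX2⟩ := h LB M card_LB hM B hB
  obtain ⟨hXF, hXs, hXt⟩ := closed_LB F s' t' X
  have hreg := isRegular_aleph_nat m
  have hω := hreg.aleph0_le
  -- the left part of `X`
  let XK : Set (Idx (Order.succ μ)) := {α | (Sum.inl α : M) ∈ X}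
  let Z : Set (Idx μ) := {v | (Sum.inr v : M) ∈ X}
  have hZ : #Z ≤ ℵ_ (m : Ordinal.{0}) := by
    rw [← hX2]
    refine Cardinal.mk_le_of_injective (f := fun v : Z =>
      (⟨Sum.inr v.1, v.2, ⟨v.1, rfl⟩⟩ : ((X : Set M) ∩ B : Set M))) ?_
    intro x y hxy
    exact Subtype.ext (Sum.inr_injective (Subtype.mk.inj hxy))
  have hXK : ℵ_ ((m : Ordinal.{0}) + 1) ≤ #XK := by
    by_contra hcon
    rw [not_le] at hcon
    have h1 : #X ≤ #(XK ⊕ Z) := by
      refine Cardinal.mk_le_of_injective (f := fun x : X => (match x with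
        | ⟨Sum.inl α, h⟩ => Sum.inl ⟨α, h⟩
        | ⟨Sum.inr v, h⟩ => Sum.inr ⟨v, h⟩ : XK ⊕ Z)) ?_
      rintro ⟨(α | v), h⟩ ⟨(β | w), h'⟩ hxy
      · simp only [Sum.inl.injEq, Subtype.mk.injEq] at hxy
        subst hxy
        rfl
      · simp at hxy
      · simp at hxy
      · simp only [Sum.inr.injEq, Subtype.mk.injEq] at hxy
        subst hxy
        rfl
    rw [hX1, mk_sum, lift_id, lift_id] at h1
    refine absurd h1 (not_le.2 (add_lt_of_lt hω hcon (lt_of_le_of_lt hZ ?_)))
    rw [lt_aleph_succ_iff]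
  obtain ⟨e₀⟩ : Nonempty (InitialSeg (fun x y : Idx (ℵ_ ((m : Ordinal.{0}) + 1)) => x < y)
      (fun x y : XK => x < y)) := by
    rw [← Ordinal.type_le_iff]
    refine le_trans ?_ (ord_le_type (fun x y : XK => x < y))
    rw [Ordinal.type_toType]
    exact ord_le_ord.2 hXK
  let e : Idx (ℵ_ ((m : Ordinal.{0}) + 1)) → Idx (Order.succ μ) := fun i => (e₀ i).1
  have he1 : ∀ i j, e i < e j ↔ i < j := fun i j => e₀.map_rel_iff
  have he2 : ∀ i j, e i ≤ e j ↔ i ≤ j := by
    intro i j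
    rw [← not_lt, he1, not_lt]
  have he3 : ∀ i, e i ∈ XK := fun i => (e₀ i).2
  have he4 : ∀ i, ∀ a ∈ XK, a ≤ e i → ∃ j ≤ i, e j = a := by
    intro i a ha hai
    rcases hai.eq_or_lt with h1 | h1
    · exact ⟨i, le_rfl, h1.symm⟩
    · obtain ⟨j, hj⟩ := e₀.mem_range_of_rel (a := i) (b := ⟨a, ha⟩) h1
      have hj' : e j = a := congrArg Subtype.val hj
      refine ⟨j, ?_, hj'⟩
      rw [← he2, hj']
      exact hai
  obtain ⟨S, hS1, hS2, H, -, hH1, hH2⟩ := exists_countable m
    (fun i : Idx (ℵ_ ((m : Ordinal.{0}) + 1)) => fun n => f (e i) n) m le_rfl Z hZ univ (by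
      rw [mk_univ, mk_ord_toType]) (fun i _ n => hXF n (Sum.inl (e i)) (he3 i))
  have : Countable S := hS2.to_subtype
  refine ⟨WithTop S, inferInstance, fun i n => proj S (f (e i) n), H,
    fun δ => {i | e i.1 ∈ E (e δ)}, ?_, hH1, ?_, ?_, ?_, ?_⟩
  · exact inferInstanceAs (Countable (Option S))
  · intro i j hij
    filter_upwards [hf1 (e j) (e i) ((he1 i j).2 hij)] with n hn
    exact proj_mono S hn.le
  · intro i hi j hj hij
    filter_upwards [hf1 (e j) (e i) ((he1 i j).2 hij)] with n hn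
    rw [proj_mem S (hH2 i hi n), proj_mem S (hH2 j hj n)]
    exact WithTop.coe_lt_coe.2 hn
  · intro δ _
    refine ⟨?_, ?_⟩
    · rw [dirSupClosed_iff_of_linearOrder]
      intro u hu hu' i hi
      by_cases hiu : i ∈ u
      · exact hu hiu
      have hlim : ∀ j < i, ∃ k ∈ u, j < k := by
        intro j hj
        by_contra hcon
        push Not at hcon
        exact absurd (hi.2 hcon) (not_le.2 hj)
      -- the supremum below `e i`
      obtain ⟨ζ, hζ⟩ := exists_lub_of_bdd (s := (fun k : Iio δ => e k.1) '' u) ⟨e i.1, by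
        rintro _ ⟨k, hk, rfl⟩
        exact (he2 _ _).2 (hi.1 hk)⟩
      have hζi : ζ ≤ e i.1 := hζ.2 (by
        rintro _ ⟨k, hk, rfl⟩
        exact (he2 _ _).2 (hi.1 hk))
      have hiδ : e i.1 < e δ := (he1 _ _).2 i.2
      have hζE : ζ ∈ E (e δ) := by
        refine hE3 (e δ) _ ?_ (hu'.image _) ζ hζ (hζi.trans_lt hiδ)
        rintro _ ⟨k, hk, rfl⟩
        exact hu hk
      have h1 := ht (e i.1) (e δ) hiδ ⟨ζ, hζE, hζi⟩
      have h2 : t (e i.1) (e δ) ∈ XK := hXt (Sum.inl (e i.1)) (Sum.inl (e δ)) (he3 _) (he3 _)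
      obtain ⟨j, hj1, hj2⟩ := he4 i.1 _ h2 h1.1.2
      have h3 : ζ ≤ t (e i.1) (e δ) := h1.2 ⟨hζE, hζi⟩
      rcases hj1.eq_or_lt with h4 | h4
      · change e i.1 ∈ E (e δ)
        rw [← h4, hj2]
        exact h1.1.1
      · exfalso
        obtain ⟨k, hk1, hk2⟩ := hlim ⟨j, h4.trans i.2⟩ h4
        have h5 : e k.1 ≤ ζ := hζ.1 ⟨k, hk1, rfl⟩
        have h6 := h5.trans h3
        rw [← hj2, he2] at h6
        exact absurd hk2 (not_lt.2 h6)
    · intro j
      have hjδ : e j.1 < e δ := (he1 _ _).2 j.2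
      have h1 := hs (e j.1) (e δ) hjδ
      have h2 : s (e j.1) (e δ) ∈ XK := hXs (Sum.inl (e j.1)) (Sum.inl (e δ)) (he3 _) (he3 _)
      have h3 : s (e j.1) (e δ) < e δ := hE1 _ _ h1.1.1
      obtain ⟨k, hk1, hk2⟩ := he4 δ _ h2 h3.le
      have h4 : k < δ := by
        rw [← he1, hk2]
        exact h3
      refine ⟨⟨k, h4⟩, ?_, ?_⟩
      · change e k ∈ E (e δ)
        rw [hk2]
        exact h1.1.1
      · change j.1 ≤ k
        rw [← he2, hk2]
        exact h1.1.2
  · intro δ
    filter_upwards [hf2 (e δ)] with n hn i hi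
    exact proj_mono S (hn _ hi).le

end Run7.h478
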