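import Mathlib
import Pool.Agent.Run7.h478.ClubTools
import Pool.Agent.Run7.h478.MainB

/-! From the increasing sequences of `HasCU` to stationary sets with strictly increasing
reflection patterns. -/

set_option autoImplicit false

namespace Run7.h478

open Cardinal Set Filter Order

theorem isSuccLimit_of_cof {α : Type} [LinearOrder α] {i : α} (h : ℵ₀ ≤ cof (Iio i)) :
    IsSuccLimit i := by
  refine ⟨?_, fun b hb => ?_⟩
  · intro hmin
    have : IsEmpty (Iio i) := ⟨fun x => absurd x.2 (not_lt.2 (hmin x.2.le))⟩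
    rw [cof_eq_zero] at h
    exact absurd h (not_le.2 aleph0_pos)
  · have h1 : cof (Iio i) = 1 := by
      rw [cof_eq_one_iff]
      exact ⟨⟨b, hb.1⟩, fun x => not_lt.1 fun hx => hb.2 hx x.2⟩
    rw [h1] at h
    exact absurd h (not_le.2 one_lt_aleph0)

theorem cofinal_to_Iio {α : Type} [LinearOrder α] {π : α → α} (hπ : IsNormal π) {i : α}
    (hi : IsSuccLimit i) :
    IsCofinal (range fun x : Iio i => (⟨π x.1, hπ.strictMono x.2⟩ : Iio (π i))) := by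
  intro y
  obtain ⟨a, ha, hya⟩ := (hπ.lt_iff_exists_lt hi).1 y.2
  exact ⟨_, ⟨⟨a, ha⟩, rfl⟩, hya.le⟩

theorem cof_normal {α : Type} [LinearOrder α] {π : α → α} (hπ : IsNormal π) {i : α}
    (hi : IsSuccLimit i) : cof (Iio (π i)) = cof (Iio i) := by
  refine (cof_congr_of_strictMono (f := fun x : Iio i => (⟨π x.1, hπ.strictMono x.2⟩ : Iio (π i)))
    (fun a b hab => hπ.strictMono hab) (cofinal_to_Iio hπ hi)).symm

theorem cof_Iio_Iio {α : Type} [LinearOrder α] {δ : α} (ξ : Iio δ) :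
    cof (Iio ξ) = cof (Iio ξ.1) := by
  refine OrderIso.cof_congr
    { toFun := fun x => ⟨x.1.1, x.2⟩
      invFun := fun x => ⟨⟨x.1, x.2.trans ξ.2⟩, x.2⟩
      left_inv := fun x => rfl
      right_inv := fun x => rfl
      map_rel_iff' := Iff.rfl }

/-- The levels at which a point `δ` reflects the sets `T n k`. -/
def refl {α : Type} [LinearOrder α] (T : ℕ → ℕ → Set α) (δ : α) (n : ℕ) : Set ℕ :=
  {k | IsStationary (Subtype.val ⁻¹' T n k : Set (Iio δ))}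

theorem matrix_idx {κ : Cardinal.{0}} (hreg : κ.IsRegular) (hκ : ℵ₀ < κ) (h : HasCU κ) :
    ∃ T : ℕ → ℕ → Set (Idx κ), (∀ n k, ∀ i ∈ T n k, cof (Iio i) = ℵ₀) ∧
      (∀ n k, IsStationary (T n k)) ∧ (∀ n k l, T n k ⊆ T n l ∨ T n l ⊆ T n k) ∧
      ∀ δ δ' : Idx κ, δ < δ' → ℵ₀ < cof (Iio δ) → ℵ₀ < cof (Iio δ') →
        ∀ᶠ n in atTop, refl T δ n ⊂ refl T δ' n := by
  classical
  obtain ⟨W, _, g, H, C, hW, hH, hg1, hg2, hC1, hC2⟩ := h
  have hcof : cof (Idx κ) = κ := by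
    rw [Ordinal.cof_toType, hreg.cof_ord]
  have hcof' : ℵ₀ < cof (Idx κ) := by rwa [hcof]
  have : IsRegularCardinalOrder (Idx κ) := ⟨by rw [Ordinal.type_toType, hcof]⟩
  have hne : Nonempty (Idx κ) := by
    rw [← cof_ne_zero_iff, hcof]
    exact (aleph0_pos.trans hκ).ne'
  have hHc : IsCofinal H := by
    by_contra hcon
    rw [not_isCofinal_iff] at hcon
    obtain ⟨b, hb⟩ := hcon
    have h1 : #H ≤ #(Iio b) := mk_le_mk_of_subset hb
    exact absurd (h1.trans_lt (mk_Iio_Idx b)) (by rw [hH]; exact lt_irrefl _)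
  let T0 : ℕ × W → Set (Idx κ) := fun p => {i | cof (Iio i) = ℵ₀ ∧ p.2 ≤ g i p.1}
  have h1 : ∀ p, ∃ D : Set (Idx κ), IsClub D ∧ (¬ IsStationary (T0 p) → Disjoint (T0 p) D) := by
    intro p
    by_cases hp : IsStationary (T0 p)
    · exact ⟨univ, .univ, fun h => absurd hp h⟩
    · obtain ⟨D, hD1, hD2⟩ := not_isStationary_iff.1 hp
      exact ⟨D, hD1, fun _ => hD2⟩
  choose D2 hD21 hD22 using h1
  let D1 : Set (Idx κ) := {i | ∀ j < i, ∃ h ∈ H, j < h ∧ h < i}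
  have hD1 : IsClub D1 := isClub_acc hcof' hHc
  have hD2 : IsClub (⋂ p, D2 p) := IsClub.iInter_of_countable hcof'.ne' hD21
  have hD : IsClub (D1 ∩ ⋂ p, D2 p) := hD1.inter hcof'.ne' hD2
  let π : Idx κ → Idx κ := Subtype.val ∘ enum _ hD.isCofinal
  have hπ : IsNormal π := IsClub.isNormal_enum hD
  have hπD : ∀ i, π i ∈ D1 ∩ ⋂ p, D2 p := fun i => (enum _ hD.isCofinal i).2
  have hπc : IsCofinal (range π) := hπ.isClub_range.isCofinal
  have hstrict : ∀ i j, i < j → ∀ᶠ n in atTop, g (π i) n < g (π j) n := by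
    intro i j hij
    obtain ⟨a, ha, h2, h3⟩ := (hπD j).1 _ (hπ.strictMono hij)
    obtain ⟨b, hb, h4, h5⟩ := (hπD j).1 _ h3
    filter_upwards [hg1 _ _ h2, hg2 a ha b hb h4, hg1 _ _ h5] with n h6 h7 h8
    exact h6.trans_lt (h7.trans_le h8)
  let T1 : ℕ → W → Set (Idx κ) := fun n w => {i | cof (Iio i) = ℵ₀ ∧ w ≤ g (π i) n}
  -- the upper bound for the pattern
  have hup : ∀ δ : Idx κ, ℵ₀ < cof (Iio δ) → ∀ᶠ n in atTop, ∀ w,
      IsStationary (Subtype.val ⁻¹' T1 n w : Set (Iio δ)) → w ≤ g (π δ) n := by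
    intro δ hδ
    have hlim := isSuccLimit_of_cof hδ.le
    have hcl := isClub_preimage (hπ.to_Iio δ) (cofinal_to_Iio hπ hlim)
      (by rw [cof_normal hπ hlim]; exact hδ.ne')
      (hC1 (π δ) (by rw [cof_normal hπ hlim]; exact hδ))
    filter_upwards [hC2 (π δ)] with n hn w hw
    obtain ⟨i, hi1, hi2⟩ := hw hcl
    exact hi1.2.trans (hn _ hi2)
  -- the lower bound for the pattern
  have hlow : ∀ δ : Idx κ, ℵ₀ < cof (Iio δ) → ∀ j < δ, ∃ ξ, j < ξ ∧ ∀ n, ∀ w ≤ g (π ξ) n,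
      IsStationary (Subtype.val ⁻¹' T1 n w : Set (Iio δ)) := by
    intro δ hδ j hj
    have h2 : ∀ p : ℕ × W, ∃ D : Set (Iio δ), IsClub D ∧
        (¬ IsStationary (Subtype.val ⁻¹' T1 p.1 p.2 : Set (Iio δ)) →
          Disjoint (Subtype.val ⁻¹' T1 p.1 p.2 : Set (Iio δ)) D) := by
      intro p
      by_cases hp : IsStationary (Subtype.val ⁻¹' T1 p.1 p.2 : Set (Iio δ))
      · exact ⟨univ, .univ, fun h => absurd hp h⟩
      · obtain ⟨D, hD1, hD2⟩ := not_isStationary_iff.1 hp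
        exact ⟨D, hD1, fun _ => hD2⟩
    choose D3 hD31 hD32 using h2
    obtain ⟨ξ, hξ1, hξ2, hξ3⟩ := exists_mem_club hδ
      (IsClub.iInter_of_countable hδ.ne' hD31) ⟨j, hj⟩
    rw [cof_Iio_Iio] at hξ3
    refine ⟨ξ.1, hξ2, fun n w hw => ?_⟩
    by_contra hcon
    have h3 := hD32 (n, w) hcon
    exact (Set.disjoint_left.1 h3) (show ξ ∈ (Subtype.val ⁻¹' T1 n w : Set (Iio δ)) from ⟨hξ3, hw⟩)
      (mem_iInter.1 hξ1 (n, w))
  have hpat : ∀ δ δ' : Idx κ, δ < δ' → ℵ₀ < cof (Iio δ) → ℵ₀ < cof (Iio δ') →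
      ∀ᶠ n in atTop, {w | IsStationary (Subtype.val ⁻¹' T1 n w : Set (Iio δ))} ⊂
        {w | IsStationary (Subtype.val ⁻¹' T1 n w : Set (Iio δ'))} := by
    intro δ δ' hδδ hδ hδ'
    obtain ⟨ξ, hξ1, hξ2⟩ := hlow δ' hδ' δ hδδ
    filter_upwards [hup δ hδ, hstrict δ ξ hξ1] with n h2 h3
    refine ⟨fun w hw => hξ2 n w ((h2 w hw).trans h3.le), fun hcon => ?_⟩
    have h4 := hcon (hξ2 n (g (π ξ) n) le_rfl)
    exact absurd (h2 _ h4) (not_le.2 h3)
  -- enumeration of the nonempty levels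
  let K : ℕ → Set W := fun n => {w | (T1 n w).Nonempty}
  have hK : ∀ n, Nonempty (K n) := by
    intro n
    obtain ⟨ξ, -, h2, -⟩ := exists_acc hcof' IsCofinal.univ hne.some
    exact ⟨⟨g (π ξ) n, ξ, h2, le_rfl⟩⟩
  have h2 : ∀ n, ∃ q : ℕ → K n, Function.Surjective q := fun n => exists_surjective_nat (K n)
  choose q hq using h2
  refine ⟨fun n k => T1 n (q n k).1, fun n k i hi => hi.1, fun n k => ?_, fun n k l => ?_, ?_⟩
  · obtain ⟨i, hi1, hi2⟩ := (q n k).2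
    have hst : IsStationary (T0 (n, (q n k).1)) := by
      by_contra hcon
      refine (Set.disjoint_left.1 (hD22 _ hcon)) (show π i ∈ T0 (n, (q n k).1) from ⟨?_, hi2⟩)
        (mem_iInter.1 (hπD i).2 _)
      rw [cof_normal hπ (isSuccLimit_of_cof hi1.ge)]
      exact hi1
    intro E hE
    have : NoTopOrder (Idx κ) := one_lt_cof_iff.1 (one_lt_aleph0.trans hcof')
    have : NoMaxOrder (Idx κ) := noTopOrder_iff_noMaxOrder (Idx κ) |>.1 this
    have h3 : IsClub (Ioi hne.some) := ⟨(isUpperSet_Ioi _).dirSupClosed, fun j => by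
      obtain ⟨b, hb⟩ := exists_gt (max j hne.some)
      exact ⟨b, (le_max_right _ _).trans_lt hb, ((le_max_left _ _).trans_lt hb).le⟩⟩
    have h4 := ((hE.inter hcof'.ne' h3).inter hcof'.ne' (isClub_acc hcof' IsCofinal.univ))
    obtain ⟨_, ⟨h5, h6⟩, ⟨j, hj, rfl⟩⟩ := hst (isClub_image hπ hπc h4)
    have hjlim : IsSuccLimit j := by
      refine ⟨fun hmin => ?_, fun b hb => ?_⟩
      · exact absurd hj.1.2 (not_lt.2 (hmin hj.1.2.le))
      · obtain ⟨c, -, h7, h8⟩ := hj.2 b hb.1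
        exact hb.2 h7 h8
    rw [cof_normal hπ hjlim] at h5
    exact ⟨j, ⟨h5, h6⟩, hj.1.1⟩
  · rcases le_total (q n k).1 (q n l).1 with h3 | h3
    · exact Or.inr fun i hi => ⟨hi.1, h3.trans hi.2⟩
    · exact Or.inl fun i hi => ⟨hi.1, h3.trans hi.2⟩
  · intro δ δ' h3 h4 h5
    filter_upwards [hpat δ δ' h3 h4 h5] with n hn
    refine ⟨fun k hk => hn.1 hk, fun hcon => hn.2 fun w hw => ?_⟩
    have hw' : w ∈ K n := by
      obtain ⟨i, hi⟩ := IsStationary.nonempty hw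
      exact ⟨i.1, hi⟩
    obtain ⟨k, hk⟩ := hq n ⟨w, hw'⟩
    have h6 : k ∈ refl (fun n k => T1 n (q n k).1) δ' n := by
      change IsStationary (Subtype.val ⁻¹' T1 n (q n k).1 : Set (Iio δ'))
      rw [hk]
      exact hw
    have h7 : IsStationary (Subtype.val ⁻¹' T1 n (q n k).1 : Set (Iio δ)) := hcon h6
    rw [hk] at h7
    exact h7

end Run7.h478
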