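import Mathlib
import Pool.Agent.Run7.h478.Matrix

/-! Long increasing sequences of functions from few values: the ground model situation. -/

set_option autoImplicit false

namespace Run7.h478

open Cardinal Set Filter Order

/-- An almost increasing sequence of functions of length `μ⁺` for which every member bounds,
almost everywhere and uniformly, a club of the previous ones. -/
def ClubUniform {μ : Cardinal.{0}} (f : Idx (succ μ) → ℕ → Idx μ)
    (E : Idx (succ μ) → Set (Idx (succ μ))) : Prop :=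
  (∀ α β, β < α → ∀ᶠ n in atTop, f β n < f α n) ∧
  (∀ α, ∀ᶠ n in atTop, ∀ β ∈ E α, f β n < f α n) ∧
  (∀ α, ∀ ε ∈ E α, ε < α) ∧ (∀ α, ∀ a < α, ∃ ε ∈ E α, a ≤ ε) ∧
  (∀ α, ∀ s ⊆ E α, s.Nonempty → ∀ x, IsLUB s x → x < α → x ∈ E α)

theorem exists_clubUniform {μ : Cardinal.{0}} (hμ : ℵ₀ < μ) (hcof : μ.ord.cof = ℵ₀) :
    ∃ f E, ClubUniform (μ := μ) f E := by
  classical
  obtain ⟨ν, P, hν1, hν2, hν3, hP1, hP2, hP3⟩ := exists_pieces hμ.le hcof hμ
  choose E hE1 hE2 hE3 hE4 using fun β => exists_club_small (μ := μ) hμ hcof β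
  let Q : Idx (Order.succ μ) → ℕ → Set (Idx (Order.succ μ)) :=
    fun α n => P α n ∪ (if #(E α) ≤ ν n then E α else ∅)
  have hQ1 : ∀ α n, ∀ β ∈ Q α n, β < α := by
    rintro α n β (hβ | hβ)
    · exact hP1 α n β hβ
    · split_ifs at hβ
      · exact hE1 α β hβ
      · exact absurd hβ (notMem_empty _)
  have hQ2 : ∀ α n, #(Q α n) ≤ ν n := by
    intro α n
    refine (mk_union_le _ _).trans ?_
    refine (add_le_add (hP2 α n) (?_ : _ ≤ ν n)).trans (add_eq_self (hν2 n)).le
    split_ifs with h1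
    · exact h1
    · simp
  obtain ⟨f, hf⟩ := exists_seq ν hν1 hν2 Q hQ1 hQ2
  refine ⟨f, E, ?_, ?_, hE1, hE2, hE3⟩
  · intro α β hβ
    obtain ⟨N, hN⟩ := hP3 α β hβ
    filter_upwards [eventually_ge_atTop N] with n hn
    exact hf α n β (Or.inl (hN n hn))
  · intro α
    obtain ⟨N, hN⟩ := hν3 _ (hE4 α)
    filter_upwards [eventually_ge_atTop N] with n hn β hβ
    refine hf α n β (Or.inr ?_)
    rw [if_pos (hN n hn)]
    exact hβ

/-- `κ` is the successor of some `ℵ_m`, or closed under countable exponentiation. -/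
def Nice (κ : Cardinal.{0}) : Prop :=
  (∃ m : ℕ, κ = ℵ_ ((m : Ordinal.{0}) + 1)) ∨ ∀ θ < κ, θ ^ ℵ₀ < κ

/-- The ground model situation: many functions with values in one small set. -/
theorem cu_of_ground {μ κ : Cardinal.{0}} (hκ : κ.IsRegular) (hn : Nice κ)
    {f : Idx (succ μ) → ℕ → Idx μ} {E : Idx (succ μ) → Set (Idx (succ μ))}
    (hf : ClubUniform f E) {D : Set (Idx (succ μ))} {C : Set (Idx μ)} (hD : κ ≤ #D) (hC : #C < κ)
    (h : ∀ x ∈ D, ∀ n, f x n ∈ C) : HasCU κ := by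
  classical
  obtain ⟨hf1, hf2, hE1, hE2, hE3⟩ := hf
  rcases hn with ⟨m, rfl⟩ | hpow
  swap
  · exfalso
    have h1 : #D ≤ #(ℕ → C) := by
      refine Cardinal.mk_le_of_injective (f := fun x : D => fun n => (⟨f x.1 n, h x.1 x.2 n⟩ : C)) ?_
      intro x y hxy
      have h2 : ∀ n, f x.1 n = f y.1 n := fun n => Subtype.mk.inj (congrFun hxy n)
      rcases lt_trichotomy x.1 y.1 with h3 | h3 | h3
      · obtain ⟨n, hn⟩ := (hf1 _ _ h3).exists
        exact absurd (h2 n) hn.ne
      · exact Subtype.ext h3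
      · obtain ⟨n, hn⟩ := (hf1 _ _ h3).exists
        exact absurd (h2 n).symm hn.ne
    rw [mk_arrow, lift_uzero, mk_nat, lift_aleph0] at h1
    exact absurd (hD.trans h1) (not_le.2 (hpow _ hC))
  have hreg := isRegular_aleph_nat m
  have hω := hreg.aleph0_le
  obtain ⟨e₀⟩ : Nonempty (InitialSeg (fun x y : Idx (ℵ_ ((m : Ordinal.{0}) + 1)) => x < y)
      (fun x y : D => x < y)) := by
    rw [← Ordinal.type_le_iff]
    refine le_trans ?_ (ord_le_type (fun x y : D => x < y))
    rw [Ordinal.type_toType]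
    exact ord_le_ord.2 hD
  obtain ⟨S, hS1, hS2, H, -, hH1, hH2⟩ := exists_countable m
    (fun i : Idx (ℵ_ ((m : Ordinal.{0}) + 1)) => fun n => f (e₀ i).1 n) m le_rfl C
    (lt_aleph_succ_iff.1 hC) univ (by rw [mk_univ, mk_ord_toType])
    (fun i _ n => h _ (e₀ i).2 n)
  have : Countable S := hS2.to_subtype
  -- a strictly increasing enumeration of `H`
  obtain ⟨e₁⟩ : Nonempty (InitialSeg (fun x y : Idx (ℵ_ ((m : Ordinal.{0}) + 1)) => x < y)
      (fun x y : H => x < y)) := by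
    rw [← Ordinal.type_le_iff]
    refine le_trans ?_ (ord_le_type (fun x y : H => x < y))
    rw [Ordinal.type_toType]
    exact ord_le_ord.2 hH1.ge
  let e : Idx (ℵ_ ((m : Ordinal.{0}) + 1)) → Idx (succ μ) := fun i => (e₀ (e₁ i).1).1
  have he : StrictMono e := fun i j hij => (e₀.map_rel_iff).2 ((e₁.map_rel_iff).2 hij)
  have heS : ∀ i n, f (e i) n ∈ S := fun i n => hH2 _ (e₁ i).2 n
  -- the normal function
  have hne : ∀ i : Idx (ℵ_ ((m : Ordinal.{0}) + 1)), {x | ∀ j < i, e j < x}.Nonempty :=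
    fun i => ⟨e i, fun j hj => he hj⟩
  let π : Idx (ℵ_ ((m : Ordinal.{0}) + 1)) → Idx (succ μ) := fun i => wellFounded_lt.min _ (hne i)
  have hπ1 : ∀ i, ∀ j < i, e j < π i := fun i => wellFounded_lt.min_mem _ (hne i)
  have hπ2 : ∀ i x, (∀ j < i, e j < x) → π i ≤ x := fun i x hx =>
    not_lt.1 (wellFounded_lt.not_lt_min {x | ∀ j < i, e j < x} hx)
  have hπe : ∀ i, π i ≤ e i := fun i => hπ2 i _ fun j hj => he hj
  have hπn : IsNormal π := by
    rw [isNormal_iff]
    refine ⟨fun i j hij => (hπe i).trans_lt (hπ1 j i hij), fun o ho a ha => hπ2 o a fun j hj => ?_⟩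
    obtain ⟨k, hjk, hko⟩ : ∃ k, j < k ∧ k < o := by
      by_contra hcon
      push Not at hcon
      exact ho.2 j ⟨hj, fun c h1 h2 => absurd h2 (not_lt.2 (hcon c h1))⟩
    exact (hπ1 k j hjk).trans_le (ha k hko)
  have hstrict : ∀ i j, i < j → ∀ᶠ n in atTop, proj S (f (π i) n) < proj S (f (π j) n) := by
    intro i j hij
    have h1 : ∀ᶠ n in atTop, f (π i) n ≤ f (e i) n := by
      rcases (hπe i).eq_or_lt with h2 | h2
      · exact Filter.Eventually.of_forall fun n => by rw [h2]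
      · exact (hf1 _ _ h2).mono fun n hn => hn.le
    filter_upwards [h1, hf1 _ _ (hπ1 j i hij)] with n h2 h3
    refine (proj_mono S h2).trans_lt ?_
    rw [proj_mem S (heS i n)]
    unfold proj
    split_ifs with h4
    · rw [WithTop.coe_lt_coe]
      exact h3.trans_le (wellFounded_lt.min_mem _ h4)
    · exact WithTop.coe_lt_top _
  refine ⟨WithTop S, inferInstance, fun i n => proj S (f (π i) n), univ,
    fun δ => {i | π i.1 ∈ E (π δ)}, inferInstanceAs (Countable (Option S)), ?_, ?_, ?_, ?_, ?_⟩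
  · rw [mk_univ, mk_ord_toType]
  · exact fun i j hij => (hstrict i j hij).mono fun n hn => hn.le
  · exact fun i _ j _ hij => hstrict i j hij
  · intro δ hδ
    have hlim := isSuccLimit_of_cof hδ.le
    have h1 : IsCofinal (range fun x : Iio δ => (⟨π x.1, hπn.strictMono x.2⟩ : Iio (π δ))) := by
      intro y
      obtain ⟨a, ha, hya⟩ := (hπn.lt_iff_exists_lt hlim).1 y.2
      exact ⟨_, ⟨⟨a, ha⟩, rfl⟩, hya.le⟩
    have h2 : cof (Iio (π δ)) = cof (Iio δ) :=
      (cof_congr_of_strictMono (f := fun x : Iio δ => (⟨π x.1, hπn.strictMono x.2⟩ : Iio (π δ)))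
        (fun a b hab => hπn.strictMono hab) h1).symm
    have h3 : IsClub {x : Iio (π δ) | x.1 ∈ E (π δ)} := by
      refine ⟨?_, ?_⟩
      · rw [dirSupClosed_iff_of_linearOrder]
        intro s hs hs' x hx
        refine hE3 (π δ) (Subtype.val '' s) ?_ (hs'.image _) x.1 ?_ x.2
        · rintro _ ⟨y, hy, rfl⟩
          exact hs hy
        · refine ⟨?_, ?_⟩
          · rintro _ ⟨y, hy, rfl⟩
            exact hx.1 hy
          · intro b hb
            by_contra hcon
            rw [not_le] at hcon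
            have h4 : x ≤ ⟨b, hcon.trans x.2⟩ := hx.2 fun y hy => hb ⟨y, hy, rfl⟩
            exact absurd hcon (not_lt.2 h4)
      · intro y
        obtain ⟨ε, h4, h5⟩ := hE2 (π δ) y.1 y.2
        exact ⟨⟨ε, hE1 _ _ h4⟩, h4, h5⟩
    exact isClub_preimage (hπn.to_Iio δ) h1 (by rw [h2]; exact hδ.ne') h3
  · intro δ
    filter_upwards [hf2 (π δ)] with n hn i hi
    exact proj_mono S (hn _ hi).le

/-- A long increasing sequence of functions gives a long chain in `P(ω)/fin`. -/
theorem chain_of_cu {κ : Cardinal.{0}} (hκ : κ.IsRegular) (h : HasCU κ) : HasChain κ := by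
  obtain ⟨W, _, g, H, C, hW, hH, hg1, hg2, hC1, hC2⟩ := h
  exact chain_of_countable hκ.aleph0_le (bddSmall_sub hκ hH) (fun i : H => g i.1)
    (fun i j hij => hg2 i.1 i.2 j.1 j.2 hij)

end Run7.h478
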