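import Mathlib
import Pool.Agent.Run7.h478.FDefsU
import Pool.Agent.Run7.h478.Ground

/-! Forcing with covering of small sets and Chang's Conjecture principles. -/

set_option autoImplicit false

namespace Run7.h478.U

open Cardinal Pool.Agent.Helper669.Forcing

variable {P : Type} [Preorder P]

theorem down_BoundedBy (A : Type) (κ : Cardinal.{0}) : Down (BoundedBy P A κ) :=
  down_fall fun _ => down_fimp _ _

theorem down_Regular (κ : Cardinal.{0}) : Down (Regular P κ) :=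
  down_fall fun _ => down_fall fun _ => down_BoundedBy _ _

theorem down_Covering (γ lam : Cardinal.{0}) : Down (Covering P γ lam) :=
  down_fall fun _ => down_fall fun _ => down_fall fun _ => down_fall fun _ => down_fimp _ _

/-- Boundedness for functions with domain any set of size less than `κ`. -/
theorem bounded_of_regular {κ : Cardinal.{0}} {p : P} (hp : p ∈ Regular P κ) {A : Type}
    (hA : #A < κ) {R : A → Idx κ → Set P} (hR : p ∈ IsFun R) :
    ∃ q ≤ p, ∃ b : Idx κ, ∀ x y, ∀ r ≤ q, r ∈ meets (R x y) → y < b := by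
  obtain ⟨e⟩ : Nonempty ((#A).out ≃ A) := by
    rw [← Cardinal.eq, mk_out]
  have h1 : p ∈ IsFun fun j => R (e j) := ⟨fun j => hR.1 _, fun j => hR.2 _⟩
  obtain ⟨q, hq, h2⟩ := mem_fimp.1 (hp #A hA fun j => R (e j)) p le_rfl h1
  obtain ⟨r, hr, b, h3⟩ := mem_fex.1 h2 q le_rfl
  refine ⟨r, hr.trans hq, b, fun x y s hs hsy => ?_⟩
  have h4 : s ∈ meets (R (e (e.symm x)) y) := by
    rw [Equiv.apply_symm_apply]
    exact hsy
  obtain ⟨t, ht, h5⟩ := mem_fimp.1 (h3 (e.symm x) y) s hs h4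
  exact h5

theorem ground_of_forced {γ κ lam : Cardinal.{0}} (hγκ : γ < κ) (hκ : ℵ₀ ≤ κ) (hlam : lam ≤ κ)
    {K : Type} {B : Set K} (hne : Nonempty K) (f : K → ℕ → K) (hf : ∀ x n, f x n ∈ B) {p : P}
    (hp1 : p ∈ BoundedBy P ℕ γ) (hp2 : p ∈ Regular P κ) (hp3 : p ∈ Covering P γ lam)
    (hT : p ∈ Chang P K B κ γ) :
    ∃ D C : Set K, lam ≤ #D ∧ #C < lam ∧ ∀ x ∈ D, ∀ n, f x n ∈ C := by
  classical
  by_contra hcon
  have hcon' : ∀ C : Set K, #C < lam → #{x | ∀ n, f x n ∈ C} < lam := by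
    intro C hC
    by_contra h
    exact hcon ⟨{x | ∀ n, f x n ∈ C}, C, not_lt.1 h, hC, fun x hx => hx⟩
  have hneκ : Nonempty (Idx κ) := by
    rw [← Cardinal.mk_ne_zero_iff, mk_ord_toType]
    exact (aleph0_pos.trans_le hκ).ne'
  -- sizes of the sets of `x` with all values in `C`
  let o : Set K → Idx κ := fun C => if h : #C < lam then
    Ordinal.ToType.mk ⟨(#{x | ∀ n, f x n ∈ C}).ord, ord_lt_ord.2 ((hcon' C h).trans_le hlam)⟩
    else hneκ.some
  have ho : ∀ C : Set K, #C < lam → #{x | ∀ n, f x n ∈ C} ≤ #(Set.Iio (o C)) := by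
    intro C hC
    simp only [o, dif_pos hC]
    have h1 : ∀ (ξ : Ordinal.{0}) (hξ : ξ < κ.ord),
        #(Set.Iio (Ordinal.ToType.mk ⟨ξ, hξ⟩ : Idx κ)) = ξ.card := by
      intro ξ hξ
      exact (Ordinal.card_typein (r := fun x y : Idx κ => x < y)
        (Ordinal.ToType.mk ⟨ξ, hξ⟩)).symm.trans (congrArg _ (Ordinal.typein_enum _ _))
    rw [h1, card_ord]
  -- enumerations
  have hd : ∀ C : Set K, ∃ d : Idx κ → K, #C < lam → ∀ b, o C ≤ b → ∀ x, (∀ n, f x n ∈ C) →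
      ∃ ξ < b, d ξ = x := by
    intro C
    by_cases hC : #C < lam
    · obtain ⟨j⟩ := (Cardinal.le_def _ _).1 (ho C hC)
      refine ⟨fun ξ => if h : ∃ x, (j x).1 = ξ then h.choose.1 else hne.some, fun _ b hb x hx => ?_⟩
      refine ⟨(j ⟨x, hx⟩).1, (j ⟨x, hx⟩).2.trans_le hb, ?_⟩
      have h2 : ∃ y, (j y).1 = (j ⟨x, hx⟩).1 := ⟨_, rfl⟩
      change (if h : ∃ y, (j y).1 = (j ⟨x, hx⟩).1 then (h.choose).1 else hne.some) = x
      rw [dif_pos h2]
      exact congrArg Subtype.val (j.injective (Subtype.ext h2.choose_spec))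
    · exact ⟨fun _ => hne.some, fun h => absurd h hC⟩
  choose d hd using hd
  let F₀ : List K → K := fun s => match s with
    | [] => hne.some
    | x :: t => f x t.length
  let F : List K → K → Set P := fun s y => {_r | F₀ s = y}
  have hFm : ∀ s y (r : P), r ∈ meets (F s y) ↔ F₀ s = y := by
    intro s y r
    constructor
    · intro h
      obtain ⟨_, _, _, h', _⟩ := h r le_rfl
      exact h'
    · intro h
      exact meets_of_mem h
  have hF : p ∈ IsFun F := by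
    refine ⟨fun s => mem_fex.2 fun r hr => ⟨r, le_rfl, F₀ s, (hFm _ _ _).2 rfl⟩,
      fun s y y' => mem_fimp.2 fun r hr hrr => ⟨r, le_rfl, ?_⟩⟩
    exact ((hFm _ _ _).1 hrr.1).symm.trans ((hFm _ _ _).1 hrr.2)
  obtain ⟨r, hr, h1⟩ := mem_fimp.1 (hT F) p le_rfl hF
  obtain ⟨r1, hr1, X, hX1, hX2, hX3⟩ := mem_fex.1 h1 r le_rfl
  obtain ⟨r2, hr2, R, hR1, hR2⟩ := mem_fex.1 hX3 r1 le_rfl
  obtain ⟨r3, hr3, J, hJ1, hJ2, hJ3⟩ := mem_fex.1 hX2 r2 hr2
  have hr32 : r3 ≤ r2 := hr3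
  have hr3p : r3 ≤ p := hr3.trans (hr2.trans (hr1.trans hr))
  have hcov := down_Covering γ lam _ hp3 _ hr3p
  have hreg := down_Regular κ _ hp2 _ hr3p
  have hbdd := down_BoundedBy ℕ γ _ hp1 _ hr3p
  -- the images of initial segments
  let Φ : Idx γ → Set K → Set P := fun ν C => fall fun i : Idx γ => fall fun _ : i < ν =>
    fall fun y => fimp (meets (R i y)) (fground (y ∈ C))
  have hΦd : ∀ ν C, Down (Φ ν C) := fun ν C =>
    down_fall fun _ => down_fall fun _ => down_fall fun _ => down_fimp _ _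
  have ha : ∀ ν, ∀ s ≤ r3, ∃ t ≤ s, ∃ C : Set K, #C < lam ∧ t ∈ Φ ν C := by
    intro ν s hs
    obtain ⟨e⟩ : Nonempty ((#(Set.Iio ν)).out ≃ Set.Iio ν) := by
      rw [← Cardinal.eq, mk_out]
    have h2 : s ∈ IsFun fun j => R (e j).1 := by
      have h3 := down_IsFun _ _ hR1 _ (hs.trans hr32)
      exact ⟨fun j => h3.1 _, fun j => h3.2 _⟩
    obtain ⟨t, ht, h4⟩ := mem_fimp.1 (hcov K #(Set.Iio ν) (mk_Iio_Idx ν) fun j => R (e j).1) s hs h2
    obtain ⟨t', ht', C, hC, h5⟩ := mem_fex.1 h4 t le_rfl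
    refine ⟨t', ht'.trans ht, C, hC, fun i hi y => ?_⟩
    have h6 := h5 (e.symm ⟨i, hi⟩) y
    simpa using h6
  -- least covers
  let Least : Idx γ → Set K → Set P := fun ν C => {t | #C < lam ∧ t ∈ Φ ν C ∧
      ∀ C', WellOrderingRel C' C → #C' < lam → t ∈ fnot (Φ ν C')}
  have hLd : ∀ ν C, Down (Least ν C) := fun ν C t ht w hw =>
    ⟨ht.1, hΦd _ _ _ ht.2.1 _ hw, fun C' h5 h6 => down_fnot _ _ (ht.2.2 C' h5 h6) _ hw⟩
  have hL1 : ∀ ν, ∀ s ≤ r3, ∃ t ≤ s, ∃ C : Set K, t ∈ Least ν C := by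
    intro ν s hs
    obtain ⟨t, ht, C, hC, h2⟩ := ha ν s hs
    have hwf : WellFounded (WellOrderingRel : Set K → Set K → Prop) :=
      IsWellFounded.wf
    let A : Set (Set K) := {C | #C < lam ∧ ∃ t ≤ s, t ∈ Φ ν C}
    have hA : A.Nonempty := ⟨C, hC, t, ht, h2⟩
    obtain ⟨h3, t', ht', h4⟩ := hwf.min_mem A hA
    refine ⟨t', ht', hwf.min A hA, h3, h4, fun C' h5 h6 w hw hcon2 => ?_⟩
    exact hwf.not_lt_min A (x := C') ⟨h6, w, hw.trans ht', hcon2⟩ h5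
  have hL2 : ∀ ν C C' t, t ∈ Least ν C → t ∈ Least ν C' → C = C' := by
    intro ν C C' t h2 h3
    rcases trichotomous_of WellOrderingRel C C' with h4 | h4 | h4
    · exact absurd h2.2.1 (h3.2.2 C h4 h2.1 t le_rfl)
    · exact h4
    · exact absurd h3.2.1 (h2.2.2 C' h4 h3.1 t le_rfl)
  -- countable ranges are bounded
  have hb : ∀ x, ∀ s ≤ r3, s ∈ meets (X x) → ∃ t ≤ s, ∃ ν : Idx γ, ∀ n, ∀ w ≤ t, ∃ v ≤ w,
      ∃ i < ν, v ∈ meets (R i (f x n)) := by
    intro x s hs hsx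
    let J : ℕ → Idx γ → Set P := fun n i =>
      {v | v ∈ meets (R i (f x n)) ∧ ∀ i' < i, v ∈ fnot (meets (R i' (f x n)))}
    have hJd : ∀ n i, Down (J n i) := fun n i v hv w hw =>
      ⟨down_meets _ _ hv.1 _ hw, fun i' hi' => down_fnot _ _ (hv.2 i' hi') _ hw⟩
    have hJ1 : ∀ n, ∀ t ≤ s, ∃ v ≤ t, ∃ i, v ∈ J n i := by
      intro n t ht
      have h6 : F₀ (x :: List.replicate n x) = f x n := by
        simp [F₀]
      have h7 : t ∈ fand (fall fun i : Fin (x :: List.replicate n x).length =>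
          meets (X ((x :: List.replicate n x).get i)))
          (meets (F (x :: List.replicate n x) (f x n))) := by
        refine ⟨fun i => ?_, (hFm (x :: List.replicate n x) (f x n) t).2 h6⟩
        have h8 : (x :: List.replicate n x).get i = x := by
          have h9 := List.get_mem (x :: List.replicate n x) i
          rcases List.mem_cons.1 h9 with h10 | h10
          · exact h10
          · exact List.eq_of_mem_replicate h10
        change t ∈ meets (X ((x :: List.replicate n x).get i))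
        rw [h8]
        exact down_meets _ _ hsx _ ht
      obtain ⟨t1, ht1, h8⟩ := mem_fimp.1 (hX1 (x :: List.replicate n x) (f x n)) t
        (ht.trans (hs.trans (hr32.trans hr2))) h7
      have h9 : t1 ∈ meets {p ∈ X (f x n) | f x n ∈ B} := by
        intro t' ht'
        obtain ⟨w, hw, v, hv, hwv⟩ := h8 t' ht'
        exact ⟨w, hw, v, ⟨hv, hf x n⟩, hwv⟩
      obtain ⟨t2, ht2, h10⟩ := mem_fimp.1 (hR2 (f x n)) t1 (ht1.trans (ht.trans (hs.trans hr32))) h9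
      obtain ⟨t3, ht3, i, hi⟩ := mem_fex.1 h10 t2 le_rfl
      let A : Set (Idx γ) := {i | ∃ v ≤ t3, v ∈ meets (R i (f x n))}
      have hA : A.Nonempty := ⟨i, t3, le_rfl, hi⟩
      obtain ⟨v, hv, h11⟩ := wellFounded_lt.min_mem A hA
      refine ⟨v, hv.trans (ht3.trans (ht2.trans ht1)), wellFounded_lt.min A hA, h11, ?_⟩
      intro i' hi' w hw hcon2
      exact wellFounded_lt.not_lt_min A (x := i') ⟨w, hw.trans hv, hcon2⟩ hi'
    have hJ2 : ∀ n i i' v, v ∈ J n i → v ∈ J n i' → i = i' := by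
      intro n i i' v h2 h3
      rcases lt_trichotomy i i' with h4 | h4 | h4
      · exact absurd h2.1 (h3.2 i h4 v le_rfl)
      · exact h4
      · exact absurd h3.1 (h2.2 i' h4 v le_rfl)
    have hJf : s ∈ IsFun J := by
      refine ⟨fun j => mem_fex.2 fun t ht => ?_, fun j i i' => mem_fimp.2 fun t ht htt =>
        ⟨t, le_rfl, ?_⟩⟩
      · obtain ⟨v, hv, i, hi⟩ := hJ1 j t ht
        exact ⟨v, hv, i, meets_of_mem hi⟩
      · obtain ⟨v, hv, h2⟩ := exists_of_meets (hJd _ _) htt.1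
        obtain ⟨w, hw, h3⟩ := exists_of_meets (hJd _ _) (down_meets _ _ htt.2 _ hv)
        exact hJ2 j i i' w (hJd _ _ _ h2 _ hw) h3
    obtain ⟨t, ht, h4⟩ := mem_fimp.1 (hbdd J) s hs hJf
    obtain ⟨t', ht', ν, h5⟩ := mem_fex.1 h4 t le_rfl
    refine ⟨t', ht'.trans ht, ν, fun n w hw => ?_⟩
    obtain ⟨v, hv, i, hi⟩ := hJ1 n w (hw.trans (ht'.trans ht))
    obtain ⟨v', hv', h7⟩ := mem_fimp.1 (h5 n i) v (hv.trans hw) (meets_of_mem hi)
    exact ⟨v, hv, i, h7, hi.1⟩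
  -- every member of `X` is enumerated
  have hmem : ∀ x, ∀ s ≤ r3, s ∈ meets (X x) → ∃ t ≤ s, ∃ ν : Idx γ, ∃ C, t ∈ Least ν C ∧
      ∀ n, f x n ∈ C := by
    intro x s hs hsx
    obtain ⟨t1, ht1, ν, h2⟩ := hb x s hs hsx
    obtain ⟨t2, ht2, C, h3⟩ := hL1 ν t1 (ht1.trans hs)
    refine ⟨t2, ht2.trans ht1, ν, C, h3, fun n => ?_⟩
    obtain ⟨v, hv, i, hi, h6⟩ := h2 n t2 ht2
    obtain ⟨w, hw, h7⟩ := mem_fimp.1 (h3.2.1 i hi (f x n)) v hv h6
    exact h7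
  -- first use of regularity: the sizes are bounded
  obtain ⟨r4, hr4, b, h2⟩ : ∃ q ≤ r3, ∃ b : Idx κ, ∀ ν C, ∀ s ≤ q, s ∈ Least ν C → o C < b := by
    let T : Idx γ → Idx κ → Set P := fun ν i => {t | ∃ C, t ∈ Least ν C ∧ i = o C}
    have hTd : ∀ ν i, Down (T ν i) := by
      rintro ν i t ⟨C, h2, h3⟩ w hw
      exact ⟨C, hLd _ _ _ h2 _ hw, h3⟩
    have hT' : r3 ∈ IsFun T := by
      refine ⟨fun ν => mem_fex.2 fun t ht => ?_, fun ν i i' => mem_fimp.2 fun t ht htt =>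
        ⟨t, le_rfl, ?_⟩⟩
      · obtain ⟨t', ht', C, h2⟩ := hL1 ν t ht
        exact ⟨t', ht', o C, meets_of_mem ⟨C, h2, rfl⟩⟩
      · obtain ⟨v, hv, h2⟩ := exists_of_meets (hTd _ _) htt.1
        obtain ⟨w, hw, h3⟩ := exists_of_meets (hTd _ _) (down_meets _ _ htt.2 _ hv)
        obtain ⟨C, h4, h5⟩ := hTd _ _ _ h2 _ hw
        obtain ⟨C', h6, h7⟩ := h3
        have h8 := hL2 ν C C' w h4 h6
        subst h8
        exact h5.trans h7.symm
    obtain ⟨q, hq, b, h2⟩ := bounded_of_regular hreg (A := Idx γ) (by rwa [mk_ord_toType]) hT'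
    exact ⟨q, hq, b, fun ν C s hs h3 => h2 ν (o C) s hs (meets_of_mem ⟨C, h3, rfl⟩)⟩
  -- second use of regularity
  let V : Idx γ × Set.Iio b → Idx κ → Set P := fun j i =>
    {t | ∃ C, t ∈ Least j.1 C ∧ (t ∈ meets (J i (d C j.2.1)) ∨
      (i = hneκ.some ∧ ∀ i', t ∈ fnot (meets (J i' (d C j.2.1)))))}
  have hVd : ∀ j i, Down (V j i) := by
    rintro j i t ⟨C, h3, h4⟩ w hw
    refine ⟨C, hLd _ _ _ h3 _ hw, ?_⟩
    rcases h4 with h4 | ⟨h4, h5⟩
    · exact Or.inl (down_meets _ _ h4 _ hw)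
    · exact Or.inr ⟨h4, fun i' => down_fnot _ _ (h5 i') _ hw⟩
  have hV : r4 ∈ IsFun V := by
    refine ⟨fun j => mem_fex.2 fun t ht => ?_, fun j i i' => mem_fimp.2 fun t ht htt =>
      ⟨t, le_rfl, ?_⟩⟩
    · obtain ⟨t', ht', C, h3⟩ := hL1 j.1 t (ht.trans hr4)
      by_cases h4 : ∃ w ≤ t', ∃ i, w ∈ meets (J i (d C j.2.1))
      · obtain ⟨w, hw, i, h5⟩ := h4
        exact ⟨w, hw.trans ht', i, meets_of_mem ⟨C, hLd _ _ _ h3 _ hw, Or.inl h5⟩⟩
      · refine ⟨t', ht', hneκ.some, meets_of_mem ⟨C, h3, Or.inr ⟨rfl, fun i' w hw h5 => ?_⟩⟩⟩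
        exact h4 ⟨w, hw, i', h5⟩
    · obtain ⟨v, hv, h3⟩ := exists_of_meets (hVd _ _) htt.1
      obtain ⟨w, hw, h4⟩ := exists_of_meets (hVd _ _) (down_meets _ _ htt.2 _ hv)
      obtain ⟨C, h5, h6⟩ := hVd _ _ _ h3 _ hw
      obtain ⟨C', h7, h8⟩ := h4
      have h9 := hL2 j.1 C C' w h5 h7
      subst h9
      have hw3 : w ≤ r3 := hw.trans (hv.trans (ht.trans hr4))
      rcases h6 with h6 | ⟨h6a, h6⟩ <;> rcases h8 with h8 | ⟨h8a, h8⟩
      · exact IsInj.eq (down_IsInj _ _ hJ2 _ hw3) h6 h8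
      · exact absurd h6 (h8 i w le_rfl)
      · exact absurd h8 (h6 i' w le_rfl)
      · exact h6a.trans h8a.symm
  have hsize : #(Idx γ × Set.Iio b) < κ := by
    rw [mk_prod]
    simp only [lift_id]
    rw [mk_ord_toType]
    exact mul_lt_of_lt hκ hγκ (mk_Iio_Idx b)
  obtain ⟨r5, hr5, b', h3⟩ := bounded_of_regular (down_Regular κ _ hreg _ hr4) hsize hV
  -- but every index is a value
  have hr53 : r5 ≤ r3 := hr5.trans hr4
  obtain ⟨s, hs, x, h4⟩ := IsFun.total (down_IsFun _ _ hJ1 _ hr53) b'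
  obtain ⟨s', hs', h5⟩ := mem_fimp.1 (hJ3 b' x) s (hs.trans hr53) h4
  obtain ⟨t, ht, ν, C, h6, h7⟩ := hmem x s' (hs'.trans (hs.trans hr53)) h5
  have hts : t ≤ s := ht.trans hs'
  have h8 : o C < b := h2 ν C t (hts.trans (hs.trans hr5)) h6
  obtain ⟨ξ, h9, h10⟩ := hd C h6.1 b h8.le x h7
  have h11 : t ∈ meets (V (ν, ⟨ξ, h9⟩) b') := by
    refine meets_of_mem ⟨C, h6, Or.inl ?_⟩
    change t ∈ meets (J b' (d C ξ))
    rw [h10]
    exact down_meets _ _ h4 _ hts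
  exact lt_irrefl _ (h3 _ _ t (hts.trans hs) h11)

end Run7.h478.U
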