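import Mathlib
import Pool.Agent.Run7.h478.FMainU

/-! Proper forcing and forcing with a chain condition satisfy covering. -/

set_option autoImplicit false

namespace Run7.h478.U

open Cardinal Pool.Agent.Helper669.Forcing

variable {P : Type} [Preorder P]

/-- Chain conditions imply covering. -/
theorem covering_of_cc {κ : Cardinal.{0}} (hκ : κ.IsRegular) (h : ChainCondition P κ) (p : P) :
    p ∈ Covering P κ κ := by
  classical
  intro Y θ hθ R
  refine mem_fimp.2 fun q hq hR => ⟨q, le_rfl, ?_⟩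
  refine mem_fex.2 fun r hr => ⟨r, le_rfl, ?_⟩
  have hR' := down_IsFun _ _ hR _ hr
  refine ⟨⋃ i, {y | ∃ s ≤ r, s ∈ meets (R i y)}, ?_, fun i y => ?_⟩
  · change #(⋃ i, {y | ∃ s ≤ r, s ∈ meets (R i y)} : Set Y) < κ
    rw [card_iUnion_lt_iff_forall_of_isRegular hκ (by rwa [mk_out])]
    intro i
    choose f hf1 hf2 using fun (y : {y | ∃ s ≤ r, s ∈ meets (R i y)}) => y.2
    have h1 : Function.Injective f := by
      intro y y' hyy
      have h2 := hf2 y
      have h3 := hf2 y'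
      rw [← hyy] at h3
      exact Subtype.ext (IsFun.unique (down_IsFun _ _ hR' _ (hf1 y)) h2 h3)
    rw [← mk_range_eq f h1]
    apply h
    rintro _ ⟨y, rfl⟩ _ ⟨y', rfl⟩ ⟨s, hs1, hs2⟩
    have h2 := down_meets _ _ (hf2 y) _ hs1
    have h3 := down_meets _ _ (hf2 y') _ hs2
    rw [Subtype.ext (IsFun.unique (down_IsFun _ _ hR' _ (hs1.trans (hf1 y))) h2 h3)]
  · refine mem_fimp.2 fun s hs hsy => ⟨s, le_rfl, ?_⟩
    exact Set.mem_iUnion.2 ⟨i, s, hs, hsy⟩

theorem covering_mono {γ γ' lam lam' : Cardinal.{0}} (hγ : γ' ≤ γ) (hlam : lam ≤ lam') {p : P}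
    (h : p ∈ Covering P γ lam) : p ∈ Covering P γ' lam' := by
  intro Y θ hθ R
  refine mem_fimp.2 fun q hq hR => ?_
  obtain ⟨r, hr, h1⟩ := mem_fimp.1 (h Y θ (hθ.trans_le hγ) R) q hq hR
  refine ⟨r, hr, mem_fex.2 fun s hs => ?_⟩
  obtain ⟨t, ht, C, hC, h2⟩ := mem_fex.1 h1 s hs
  exact ⟨t, ht, C, lt_of_lt_of_le hC hlam, h2⟩

/-- The closure of a countable set under a function on finite sequences is countable. -/
theorem exists_countable_closed {α : Type} (F : List α → α) (Z₀ : Set α) (hZ : Z₀.Countable) :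
    ∃ Z : Set α, Z₀ ⊆ Z ∧ Z.Countable ∧ ∀ l : List α, (∀ x ∈ l, x ∈ Z) → F l ∈ Z := by
  let G : Set α → Set α := fun Z => Z ∪ F '' {l | ∀ x ∈ l, x ∈ Z}
  have hG : ∀ Z : Set α, Z.Countable → (G Z).Countable := by
    intro Z hZ
    have h1 : Countable Z := hZ.to_subtype
    refine hZ.union (Set.Countable.image ?_ F)
    rw [← Set.range_list_map_coe]
    exact Set.countable_range _
  let S : ℕ → Set α := fun n => G^[n] Z₀
  have hS : ∀ n, S (n + 1) = G (S n) := fun n => Function.iterate_succ_apply' G n Z₀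
  have hSc : ∀ n, (S n).Countable := by
    intro n
    induction n with
    | zero => exact hZ
    | succ n ih =>
      rw [hS n]
      exact hG _ ih
  have hSm : Monotone S := monotone_nat_of_le_succ fun n => by
    rw [hS n]
    exact Set.subset_union_left
  refine ⟨⋃ n, S n, Set.subset_iUnion S 0, Set.countable_iUnion hSc, fun l hl => ?_⟩
  have h1 : ∃ n, ∀ x ∈ l, x ∈ S n := by
    induction l with
    | nil => exact ⟨0, by simp⟩
    | cons a l ih =>
      obtain ⟨n, hn⟩ := ih fun x hx => hl x (List.mem_cons_of_mem a hx)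
      obtain ⟨k, hk⟩ := Set.mem_iUnion.1 (hl a List.mem_cons_self)
      refine ⟨max n k, fun x hx => ?_⟩
      rcases List.mem_cons.1 hx with h2 | h2
      · rw [h2]
        exact hSm (le_max_right _ _) hk
      · exact hSm (le_max_left _ _) (hn x h2)
  obtain ⟨n, hn⟩ := h1
  refine Set.mem_iUnion.2 ⟨n + 1, ?_⟩
  rw [hS n]
  exact Or.inr ⟨l, hn, rfl⟩

/-- Proper forcing has the countable covering property. -/
theorem covering_of_proper (h : IsProper P) (p : P) : p ∈ Covering P ℵ₁ ℵ₁ := by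
  classical
  intro Y θ hθ R
  refine mem_fimp.2 fun p₀ hp₀ hR => ?_
  obtain ⟨F, hF⟩ := h
  have hθc : Countable θ.out := by
    rw [← Cardinal.mk_le_aleph0_iff, mk_out]
    exact Order.lt_succ_iff.1 (by rwa [succ_aleph0])
  let D : θ.out → Set P := fun i => {r | (∃ y, r ∈ meets (R i y)) ∨ ¬ ∃ s, s ≤ r ∧ s ≤ p₀}
  have hD : ∀ i r, ∃ d ∈ D i, d ≤ r := by
    intro i r
    by_cases h1 : ∃ s, s ≤ r ∧ s ≤ p₀
    · obtain ⟨s, hs1, hs2⟩ := h1
      obtain ⟨t, ht, y, hy⟩ := IsFun.total (down_IsFun _ _ hR _ hs2) i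
      exact ⟨t, Or.inl ⟨y, hy⟩, ht.trans hs1⟩
    · exact ⟨r, Or.inr h1, le_rfl⟩
  obtain ⟨Z, hZ1, hZ2, hZ3⟩ := exists_countable_closed F
    (insert (Sum.inr p₀) (Set.range fun i => Sum.inl (D i)))
    ((Set.countable_range _).insert _)
  obtain ⟨q, hq, h1⟩ := hF Z hZ2 hZ3 p₀ (hZ1 (Set.mem_insert _ _))
  refine ⟨q, hq, mem_fex.2 fun r hr => ⟨r, le_rfl, ?_⟩⟩
  let C : Set Y := {y | ∃ i d, Sum.inr d ∈ Z ∧ d ∈ meets (R i y) ∧ ∃ s, s ≤ d ∧ s ≤ p₀}
  have hC : C.Countable := by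
    have h2 : Countable Z := hZ2.to_subtype
    choose i d hd1 hd2 s hs1 hs2 using fun y : C => y.2
    have h3 : Function.Injective fun y : C => (i y, (⟨Sum.inr (d y), hd1 y⟩ : Z)) := by
      intro y y' hyy
      have h4 : i y = i y' := congrArg Prod.fst hyy
      have h5 : d y = d y' := by
        have h6 := congrArg (fun z => (z.2 : Set P ⊕ P)) hyy
        exact Sum.inr_injective h6
      have h6 := hd2 y
      rw [h4, h5] at h6
      have h7 := hd2 y'
      have h8 : s y' ∈ meets (R (i y') y.1) := down_meets _ _ h6 _ (hs1 y')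
      have h9 : s y' ∈ meets (R (i y') y'.1) := down_meets _ _ h7 _ (hs1 y')
      exact Subtype.ext (IsFun.unique (down_IsFun _ _ hR _ (hs2 y')) h8 h9)
    exact Set.countable_coe_iff.1 h3.countable
  refine ⟨C, ?_, fun i y => mem_fimp.2 fun s hs hsy => ⟨s, le_rfl, ?_⟩⟩
  · change #C < ℵ₁
    rw [← succ_aleph0, Order.lt_succ_iff]
    exact Cardinal.mk_le_aleph0_iff.2 hC.to_subtype
  · obtain ⟨d, hd1, hd2, t, ht1, ht2⟩ := h1 (D i) (hZ1 (Or.inr ⟨i, rfl⟩)) (hD i) s (hs.trans hr)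
    have htp : t ≤ p₀ := ht2.trans (hs.trans (hr.trans hq))
    rcases hd1 with ⟨y', hy'⟩ | hd1
    · have h2 := down_meets _ _ hy' _ ht1
      have h3 := down_meets _ _ hsy _ ht2
      have h4 := IsFun.unique (down_IsFun _ _ hR _ htp) h2 h3
      refine ⟨i, d, hd2, ?_, t, ht1, htp⟩
      rw [← h4]
      exact hy'
    · exact absurd ⟨t, ht1, htp⟩ hd1

end Run7.h478.U
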