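import Mathlib
import Pool.Agent.Run7.h478.FCases

/-! From a forced Chang's Conjecture principle to long increasing sequences of functions in the
ground model. -/

set_option autoImplicit false

namespace Run7.h478.U

open Cardinal Pool.Agent.Helper669.Forcing Run7.h478

variable {P : Type} [Preorder P]

theorem cu_of_chang {γ κ lam μ : Cardinal.{0}} (hγκ : γ < κ) (hκ : ℵ₀ ≤ κ) (hlam : lam ≤ κ)
    (hlam' : ℵ₀ ≤ lam) (hn : Nice lam) (hμ : ℵ₀ < μ) (hcof : μ.ord.cof = ℵ₀) {K : Type}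
    {B : Set K} (hK : #K = Order.succ μ) (hB : #B = μ) {p : P} (h1 : p ∈ BoundedBy P ℕ γ)
    (h2 : p ∈ Regular P κ) (h3 : p ∈ Covering P γ lam) (h : p ∈ Chang P K B κ γ) :
    HasCU lam ∧ lam.IsRegular := by
  classical
  obtain ⟨f, E, hf⟩ := exists_clubUniform hμ hcof
  obtain ⟨eK⟩ : Nonempty (K ≃ Idx (Order.succ μ)) := by
    rw [← Cardinal.eq, hK, mk_ord_toType]
  obtain ⟨eB⟩ : Nonempty (B ≃ Idx μ) := by
    rw [← Cardinal.eq, hB, mk_ord_toType]
  have hne : Nonempty K := by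
    rw [← Cardinal.mk_ne_zero_iff, hK]
    exact (aleph0_pos.trans (hμ.trans (Order.lt_succ μ))).ne'
  obtain ⟨D, C, hD, hC, hDC⟩ := ground_of_forced hγκ hκ hlam hne
    (fun x n => (eB.symm (f (eK x) n)).1) (fun x n => (eB.symm (f (eK x) n)).2) h1 h2 h3 h
  have hD' : lam ≤ #(eK '' D) := by
    rwa [mk_image_eq eK.injective]
  have hC' : #{v : Idx μ | (eB.symm v).1 ∈ C} < lam := by
    refine lt_of_le_of_lt ?_ hC
    refine Cardinal.mk_le_of_injective
      (f := fun v : {v : Idx μ | (eB.symm v).1 ∈ C} => (⟨(eB.symm v.1).1, v.2⟩ : C)) ?_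
    intro v w hvw
    have h4 : (eB.symm v.1).1 = (eB.symm w.1).1 := Subtype.mk.inj hvw
    exact Subtype.ext (eB.symm.injective (Subtype.ext h4))
  have hreg : lam.IsRegular := by
    rcases hn with ⟨m, rfl⟩ | hpow
    · exact isRegular_aleph_nat m
    · exfalso
      have h5 : #(eK '' D) ≤ #(ℕ → {v : Idx μ | (eB.symm v).1 ∈ C}) := by
        refine Cardinal.mk_le_of_injective (f := fun x : eK '' D => fun n =>
          (⟨f x.1 n, by
            obtain ⟨y, hy, hyx⟩ := x.2
            rw [← hyx]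
            exact hDC y hy n⟩ : {v : Idx μ | (eB.symm v).1 ∈ C})) ?_
        intro x y hxy
        have h6 : ∀ n, f x.1 n = f y.1 n := fun n => Subtype.mk.inj (congrFun hxy n)
        rcases lt_trichotomy x.1 y.1 with h7 | h7 | h7
        · obtain ⟨n, hn⟩ := (hf.1 _ _ h7).exists
          exact absurd (h6 n) hn.ne
        · exact Subtype.ext h7
        · obtain ⟨n, hn⟩ := (hf.1 _ _ h7).exists
          exact absurd (h6 n).symm hn.ne
      rw [mk_arrow, lift_uzero, mk_nat, lift_aleph0] at h5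
      exact absurd (hD'.trans h5) (not_le.2 (hpow _ hC'))
  refine ⟨cu_of_ground hreg hn hf hD' hC' ?_, hreg⟩
  rintro _ ⟨x, hx, rfl⟩ n
  exact hDC x hx n

/-- The three ways of getting covering. -/
theorem covering_cases {γ κ lam : Cardinal.{0}} (hγκ : γ < κ) {p : P}
    (h : p ∈ Covering P γ lam ∨ (lam = κ ∧ κ.IsRegular ∧ ChainCondition P κ) ∨
      (γ = ℵ₁ ∧ lam = ℵ_ 2 ∧ IsProper P)) : p ∈ Covering P γ lam := by
  rcases h with h | ⟨rfl, h1, h2⟩ | ⟨rfl, rfl, h1⟩
  · exact h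
  · exact covering_mono hγκ.le le_rfl (covering_of_cc h1 h2 p)
  · exact covering_mono le_rfl (aleph_le_aleph.2 (by norm_num)) (covering_of_proper h1 p)

end Run7.h478.U
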