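import Mathlib
import Pool.Agent.Run7.h478.Defs
import Pool.Agent.Run7.h478.Pigeon

/-! From the transfer principle `(μ⁺, μ) ↠ (ℵ_{m+1}, ℵ_m)` to a chain of length `ω_{m+1}` in
`P(ω)/fin`. -/

set_option autoImplicit false

namespace Run7.h478

open Cardinal Set Filter FirstOrder

/-- The function symbols: countably many unary ones. -/
inductive Fn : ℕ → Type
  | f (n : ℕ) : Fn 1

/-- The language with countably many unary function symbols. -/
def LU : FirstOrder.Language.{0, 0} := ⟨Fn, fun _ => Empty⟩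

theorem card_LU : LU.card ≤ ℵ₀ := by
  have h1 : Countable LU.Symbols := by
    have h2 : Function.Injective (fun s : LU.Symbols => (match s with
      | Sum.inl ⟨_, Fn.f n⟩ => n : ℕ)) := by
      rintro (⟨a, ⟨n⟩⟩ | ⟨a, x⟩) (⟨b, ⟨m⟩⟩ | ⟨b, y⟩) h
      · have : n = m := h
        subst this
        rfl
      · exact y.elim
      · exact x.elim
      · exact x.elim
    exact h2.countable
  exact Cardinal.mk_le_aleph0_iff.2 h1

/-- The structure given by countably many unary functions. -/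
def strLU {M : Type} (F : ℕ → M → M) : LU.Structure M where
  funMap := fun {_} s v => match s with
    | Fn.f n => F n (v 0)
  RelMap := fun {_} r _ => Empty.elim r

theorem closed_LU {M : Type} (F : ℕ → M → M) (X : @FirstOrder.Language.ElementarySubstructure LU M (strLU F))
    (n : ℕ) (x : M) (hx : x ∈ X) : F n x ∈ X := by
  letI := strLU F
  have h := X.toSubstructure.fun_mem (Fn.f n : LU.Functions 1) (fun _ => x) (fun _ => hx)
  exact h

theorem mainA (μ : Cardinal.{0}) (hμ : ℵ₀ < μ) (hcof : μ.ord.cof = ℵ₀) (m : ℕ)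
    (h : ChangTransfer (Order.succ μ) μ (ℵ_ ((m : Ordinal.{0}) + 1)) (ℵ_ (m : Ordinal.{0}))) :
    HasChain (ℵ_ ((m : Ordinal.{0}) + 1)) := by
  obtain ⟨ν, P, hν1, hν2, hν3, hP1, hP2, hP3⟩ := exists_pieces hμ.le hcof hμ
  obtain ⟨f, hf⟩ := exists_seq ν hν1 hν2 P hP1 hP2
  let M : Type := Idx (Order.succ μ) ⊕ Idx μ
  let F : ℕ → M → M := fun n x => match x with
    | Sum.inl α => Sum.inr (f α n)
    | Sum.inr v => Sum.inr v
  let B : Set M := range Sum.inr
  have hM : #M = Order.succ μ := by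
    rw [mk_sum, lift_id, lift_id, mk_ord_toType, mk_ord_toType]
    exact add_eq_left (hμ.le.trans (Order.le_succ μ)) (Order.le_succ μ)
  have hB : #B = μ := by
    rw [mk_range_eq _ Sum.inr_injective, mk_ord_toType]
  letI := strLU F
  obtain ⟨X, hX1, hX2⟩ := h LU M card_LU hM B hB
  have hXF : ∀ n, ∀ x ∈ X, F n x ∈ X := fun n x hx => closed_LU F X n x hx
  have hreg := isRegular_aleph_nat m
  have hω := hreg.aleph0_le
  -- the left part of `X`
  let XK : Set (Idx (Order.succ μ)) := {α | (Sum.inl α : M) ∈ X}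
  let Z : Set (Idx μ) := {v | (Sum.inr v : M) ∈ X}
  have hZ : #Z ≤ ℵ_ (m : Ordinal.{0}) := by
    rw [← hX2]
    refine Cardinal.mk_le_of_injective (f := fun v : Z =>
      (⟨Sum.inr v.1, v.2, ⟨v.1, rfl⟩⟩ : ((X : Set M) ∩ B : Set M))) ?_
    intro x y hxy
    exact Subtype.ext (Sum.inr_injective (Subtype.mk.inj hxy))
  have hXK : ℵ_ ((m : Ordinal.{0}) + 1) ≤ #XK := by
    by_contra hcon
    rw [not_le] at hcon
    have h1 : #X ≤ #(XK ⊕ Z) := by
      refine Cardinal.mk_le_of_injective (f := fun x : X => (match x with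
        | ⟨Sum.inl α, h⟩ => Sum.inl ⟨α, h⟩
        | ⟨Sum.inr v, h⟩ => Sum.inr ⟨v, h⟩ : XK ⊕ Z)) ?_
      rintro ⟨(α | v), h⟩ ⟨(β | w), h'⟩ hxy
      · simp only [Sum.inl.injEq, Subtype.mk.injEq] at hxy
        subst hxy
        rfl
      · simp at hxy
      · simp at hxy
      · simp only [Sum.inr.injEq, Subtype.mk.injEq] at hxy
        subst hxy
        rfl
    rw [hX1, mk_sum, lift_id, lift_id] at h1
    refine absurd h1 (not_le.2 (add_lt_of_lt hω hcon (lt_of_le_of_lt hZ ?_)))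
    rw [lt_aleph_succ_iff]
  obtain ⟨e₀⟩ : Nonempty (InitialSeg (fun x y : Idx (ℵ_ ((m : Ordinal.{0}) + 1)) => x < y)
      (fun x y : XK => x < y)) := by
    rw [← Ordinal.type_le_iff]
    refine le_trans ?_ (ord_le_type (fun x y : XK => x < y))
    rw [Ordinal.type_toType]
    exact ord_le_ord.2 hXK
  have he₀ : ∀ i j, i < j → (e₀ i : Idx (Order.succ μ)) < e₀ j := fun i j hij =>
    (e₀.map_rel_iff).2 hij
  obtain ⟨S, hS1, hS2, H, -, hH1, hH2⟩ := exists_countable m
    (fun i : Idx (ℵ_ ((m : Ordinal.{0}) + 1)) => fun n => f (e₀ i).1 n) m le_rfl Z hZ univ (by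
      rw [mk_univ, mk_ord_toType]) (fun i _ n => hXF n (Sum.inl (e₀ i).1) (e₀ i).2)
  have hJ := bddSmall_sub hreg hH1
  have : Countable S := hS2.to_subtype
  refine chain_of_countable hω hJ (S := S) (fun i n => ⟨f (e₀ i.1).1 n, hH2 i.1 i.2 n⟩) ?_
  intro i j hij
  obtain ⟨N, hN⟩ := hP3 (e₀ j.1).1 (e₀ i.1).1 (he₀ _ _ hij)
  filter_upwards [eventually_ge_atTop N] with n hn
  exact hf _ n _ (hN n hn)

end Run7.h478
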