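import Mathlib
import Pool.Agent.Helper669.Forcing

/-! Chang's Conjecture principles in the forcing language. -/

set_option autoImplicit false

namespace Run7.h478

open Cardinal Pool.Agent.Helper669.Forcing

universe u

variable {P : Type u} [Preorder P]

/-- The subset of `K` named by `X` is closed under the operation on finite sequences of elements
of `K` named by `F`. -/
def ClosedUnder {K : Type u} (F : List K → K → Set P) (X : K → Set P) : Set P :=
  fall fun s : List K => fall fun y : K =>
    fimp (fand (fall fun i : Fin s.length => meets (X (s.get i))) (meets (F s y))) (meets (X y))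

/-- The subset of `K` named by `X` has at least `κ` elements: some injective function with domain
`κ` has all its values in it. -/
def SizeGe {K : Type u} (κ : Cardinal.{u}) (X : K → Set P) : Set P :=
  fex fun R : κ.ord.ToType → K → Set P =>
    fand (IsFun R) (fand (IsInj R) (fall fun i => fall fun y => fimp (meets (R i y)) (meets (X y))))

/-- The subset of `K` named by `X` has fewer than `κ` elements: it is contained in the range of a
function whose domain is some cardinal `θ < κ`. -/
def SizeLt {K : Type u} (κ : Cardinal.{u}) (X : K → Set P) : Set P :=
  fex fun θ : Cardinal.{u} => fex fun _ : θ < κ => fex fun R : θ.out → K → Set P =>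
    fand (IsFun R) (fall fun y => fimp (meets (X y)) (fex fun i => meets (R i y)))

/-- In the extension, for every operation `F` on the finite sequences of elements of `K` there is
a subset `X` of `K` closed under `F` with `|X| ≥ κ` and `|X ∩ B| < κ`. -/
def Transfer (P : Type u) [Preorder P] (K : Type u) (B : Set K) (κ : Cardinal.{u}) : Set P :=
  fall fun F : List K → K → Set P => fimp (IsFun F) (fex fun X : K → Set P =>
    fand (ClosedUnder F X) (fand (SizeGe κ X) (SizeLt κ fun y => {p ∈ X y | y ∈ B})))

/-- In the extension, every function from a cardinal `θ < κ` to a set `Y` of the ground model has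
its range covered by a subset of `Y` in the ground model which has size less than `κ` there. -/
def Covers (P : Type u) [Preorder P] (κ : Cardinal.{u}) : Set P :=
  fall fun Y : Type u => fall fun θ : Cardinal.{u} => fall fun _ : θ < κ =>
    fall fun R : θ.out → Y → Set P => fimp (IsFun R) (fex fun C : Set Y =>
      fand (fground (#C < κ)) (fall fun i => fall fun y => fimp (meets (R i y)) (fground (y ∈ C))))

/-- All antichains of `P` have size less than `κ`. -/
def ChainCondition (P : Type u) [Preorder P] (κ : Cardinal.{u}) : Prop :=
  ∀ A : Set P, (∀ a ∈ A, ∀ b ∈ A, (∃ s, s ≤ a ∧ s ≤ b) → a = b) → #A < κ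

end Run7.h478
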