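import Mathlib
import Pool.Agent.Run7.h478.FDefs

/-! Chang's Conjecture principles at a successor in the forcing language. -/

set_option autoImplicit false

namespace Run7.h478

open Cardinal Pool.Agent.Helper669.Forcing

universe u

variable {P : Type u} [Preorder P]

/-- The subset of `K` named by `X` has at most `γ` elements: it is contained in the range of a
function with domain `γ`. -/
def SizeLe {K : Type u} (γ : Cardinal.{u}) (X : K → Set P) : Set P :=
  fex fun R : γ.ord.ToType → K → Set P =>
    fand (IsFun R) (fall fun y => fimp (meets (X y)) (fex fun i => meets (R i y)))

/-- In the extension, for every operation `F` on the finite sequences of elements of `K` there is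
a subset `X` of `K` closed under `F` such that `X` has more than `γ` elements and `X ∩ B` has at
most `γ` elements. -/
def TransferSucc (P : Type u) [Preorder P] (K : Type u) (B : Set K) (γ : Cardinal.{u}) : Set P :=
  fall fun F : List K → K → Set P => fimp (IsFun F) (fex fun X : K → Set P =>
    fand (ClosedUnder F X) (fand (fnot (SizeLe γ X)) (SizeLe γ fun y => {p ∈ X y | y ∈ B})))

end Run7.h478
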