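import Mathlib
import Pool.Agent.Run7.h478.FDefs

/-! Forcing with a chain condition below a cardinal which is closed under countable exponentiation
does not give Chang's Conjecture principles at cardinals of countable cofinality. -/

set_option autoImplicit false

namespace Run7.h478

open Cardinal Pool.Agent.Helper669.Forcing

universe u

variable {P : Type u} [Preorder P]

theorem down_ClosedUnder {K : Type u} (F : List K → K → Set P) (X : K → Set P) :
    Down (ClosedUnder F X) :=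
  down_fall fun _ => down_fall fun _ => down_fimp _ _

theorem down_Covers (κ : Cardinal.{u}) : Down (Covers P κ) :=
  down_fall fun _ => down_fall fun _ => down_fall fun _ => down_fall fun _ => down_fimp _ _

theorem down_Transfer (K : Type u) (B : Set K) (κ : Cardinal.{u}) : Down (Transfer P K B κ) :=
  down_fall fun _ => down_fimp _ _

/-- If covering holds then `κ` is not collapsed. -/
theorem not_inj_of_covers {κ : Cardinal.{u}} {p : P} (hp : p ∈ Covers P κ) {K : Type u}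
    {C : Set K} (hC : #C < κ) (R : κ.ord.ToType → K → Set P) (h1 : p ∈ IsFun R)
    (h2 : p ∈ IsInj R) (h3 : ∀ i y, ∀ q ≤ p, q ∈ meets (R i y) → y ∈ C) : False := by
  classical
  have hκ : 0 < κ := bot_le.trans_lt hC
  have hne : Nonempty κ.ord.ToType := by
    rw [← Cardinal.mk_ne_zero_iff, mk_ord_toType]
    exact hκ.ne'
  obtain ⟨i₀⟩ := hne
  obtain ⟨e⟩ : Nonempty ((#C).out ≃ C) := by
    rw [← Cardinal.eq, mk_out]
  let R' : (#C).out → κ.ord.ToType → Set P := fun j i =>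
    {r | r ∈ meets (R i (e j).1) ∨ (i = i₀ ∧ r ∈ fnot (fex fun i' => meets (R i' (e j).1)))}
  have hdown : ∀ j i, Down (R' j i) := by
    rintro j i r (hr | ⟨hi, hr⟩) s hs
    · exact Or.inl (down_meets _ _ hr _ hs)
    · exact Or.inr ⟨hi, down_fnot _ _ hr _ hs⟩
  have hfun : p ∈ IsFun R' := by
    refine ⟨fun j => mem_fex.2 fun q hq => ?_, fun j i i' => mem_fimp.2 fun q hq hqq => ?_⟩
    · by_cases h : q ∈ fnot (fex fun i' => meets (R i' (e j).1))
      · exact ⟨q, le_rfl, i₀, meets_of_mem (Or.inr ⟨rfl, h⟩)⟩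
      · simp only [fnot, Set.mem_ofPred_eq, not_forall, not_not] at h
        obtain ⟨r, hr, h⟩ := h
        obtain ⟨s, hs, i, hi⟩ := mem_fex.1 h r le_rfl
        exact ⟨s, hs.trans hr, i, meets_of_mem (Or.inl hi)⟩
    · refine ⟨q, le_rfl, ?_⟩
      obtain ⟨hq1, hq2⟩ := hqq
      obtain ⟨r, hr, h4⟩ := exists_of_meets (hdown j i) hq1
      obtain ⟨s, hs, h5⟩ := exists_of_meets (hdown j i') (down_meets _ _ hq2 _ hr)
      have h4' := hdown j i _ h4 _ hs
      have hsp : s ≤ p := (hs.trans hr).trans hq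
      rcases h4' with h4' | ⟨rfl, h4'⟩ <;> rcases h5 with h5 | ⟨h5a, h5⟩
      · exact IsInj.eq (down_IsInj _ _ h2 _ hsp) h4' h5
      · exact absurd (mem_fex_of_mem i (down_meets _) h4') (h5 s le_rfl)
      · exact absurd (mem_fex_of_mem i' (down_meets _) h5) (h4' s le_rfl)
      · exact h5a.symm
  obtain ⟨q, hq, h4⟩ := mem_fimp.1 (hp κ.ord.ToType #C hC R') p le_rfl hfun
  obtain ⟨r, hr, C', hC', h5⟩ := mem_fex.1 h4 q le_rfl
  have hC'' : #C' < κ := hC'
  obtain ⟨i, hi⟩ : ∃ i, i ∉ C' := by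
    by_contra hcon
    push Not at hcon
    have h6 : C' = Set.univ := Set.eq_univ_of_forall hcon
    rw [h6, mk_univ, mk_ord_toType] at hC''
    exact lt_irrefl _ hC''
  have hrp : r ≤ p := hr.trans hq
  obtain ⟨s, hs, y, hy⟩ := IsFun.total (down_IsFun _ _ h1 _ hrp) i
  have hyC : y ∈ C := h3 i y s (hs.trans hrp) hy
  have h7 : s ∈ meets (R' (e.symm ⟨y, hyC⟩) i) := by
    refine meets_of_mem (Or.inl ?_)
    rw [Equiv.apply_symm_apply]
    exact hy
  obtain ⟨t, ht, h8⟩ := mem_fimp.1 (h5 (e.symm ⟨y, hyC⟩) i) s hs h7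
  exact hi h8

/-- The main argument: from a forced transfer principle to a ground model situation. -/
theorem ground_of_forced {κ : Cardinal.{u}} {K : Type u} {B : Set K} (hne : Nonempty K)
    (f : K → ℕ → K) (hf : ∀ x n, f x n ∈ B) {p : P} (hp : p ∈ Covers P κ)
    (hT : p ∈ Transfer P K B κ) :
    ∃ D C : Set K, κ ≤ #D ∧ #C < κ ∧ ∀ x ∈ D, ∀ n, f x n ∈ C := by
  classical
  let F₀ : List K → K := fun s => match s with
    | [] => hne.some
    | x :: t => f x t.length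
  let F : List K → K → Set P := fun s y => {_r | F₀ s = y}
  have hFm : ∀ s y (r : P), r ∈ meets (F s y) ↔ F₀ s = y := by
    intro s y r
    constructor
    · intro h
      obtain ⟨_, _, _, h', _⟩ := h r le_rfl
      exact h'
    · intro h
      exact meets_of_mem h
  have hF : p ∈ IsFun F := by
    refine ⟨fun s => mem_fex.2 fun r hr => ⟨r, le_rfl, F₀ s, (hFm _ _ _).2 rfl⟩,
      fun s y y' => mem_fimp.2 fun r hr hrr => ⟨r, le_rfl, ?_⟩⟩
    exact ((hFm _ _ _).1 hrr.1).symm.trans ((hFm _ _ _).1 hrr.2)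
  obtain ⟨r, hr, h1⟩ := mem_fimp.1 (hT F) p le_rfl hF
  obtain ⟨r1, hr1, X, hX1, hX2, hX3⟩ := mem_fex.1 h1 r le_rfl
  obtain ⟨r2, hr2, θ, h2⟩ := mem_fex.1 hX3 r1 le_rfl
  obtain ⟨r3, hr3, hθ, h3⟩ := mem_fex.1 h2 r2 le_rfl
  obtain ⟨r4, hr4, R, hR1, hR2⟩ := mem_fex.1 h3 r3 le_rfl
  have hr4q : r4 ≤ p := hr4.trans (hr3.trans (hr2.trans (hr1.trans hr)))
  obtain ⟨r5, hr5, h4⟩ := mem_fimp.1 (down_Covers κ _ hp _ hr4q K θ hθ R) r4 le_rfl hR1
  obtain ⟨r6, hr6, C, hC, h5⟩ := mem_fex.1 h4 r5 le_rfl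
  have hC' : #C < κ := hC
  have hr61 : r6 ≤ r1 := hr6.trans (hr5.trans (hr4.trans (hr3.trans hr2)))
  have hr64 : r6 ≤ r4 := hr6.trans hr5
  -- members of `X ∩ B` belong to `C`
  have hXB : ∀ y ∈ B, ∀ s ≤ r6, s ∈ meets (X y) → y ∈ C := by
    intro y hy s hs hsy
    have h6 : s ∈ meets {p ∈ X y | y ∈ B} := by
      intro t ht
      obtain ⟨w, hw, v, hv, hwv⟩ := hsy t ht
      exact ⟨w, hw, v, ⟨hv, hy⟩, hwv⟩
    obtain ⟨t, ht, h7⟩ := mem_fimp.1 (hR2 y) s (hs.trans hr64) h6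
    obtain ⟨w, hw, i, h8⟩ := mem_fex.1 h7 t le_rfl
    obtain ⟨v, hv, h9⟩ := mem_fimp.1 (h5 i y) w (hw.trans (ht.trans hs)) h8
    exact h9
  refine ⟨{x | ∃ s ≤ r6, s ∈ meets (X x)}, C, ?_, hC', ?_⟩
  · by_contra hcon
    rw [not_le] at hcon
    obtain ⟨r7, hr7, R', hR'1, hR'2, hR'3⟩ := mem_fex.1 hX2 r6 hr61
    refine not_inj_of_covers (down_Covers κ _ hp _ (hr7.trans (hr64.trans hr4q))) hcon R'
      hR'1 hR'2 ?_
    intro i y s hs hsy
    obtain ⟨t, ht, h6⟩ := mem_fimp.1 (hR'3 i y) s hs hsy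
    exact ⟨t, ht.trans (hs.trans hr7), h6⟩
  · rintro x ⟨s, hs, hsx⟩ n
    have h6 : F₀ (x :: List.replicate n x) = f x n := by
      simp [F₀]
    have h7 : s ∈ fand (fall fun i : Fin (x :: List.replicate n x).length =>
        meets (X ((x :: List.replicate n x).get i)))
        (meets (F (x :: List.replicate n x) (f x n))) := by
      refine ⟨fun i => ?_, (hFm (x :: List.replicate n x) (f x n) s).2 h6⟩
      have h8 : (x :: List.replicate n x).get i = x := by
        have h9 := List.get_mem (x :: List.replicate n x) i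
        rcases List.mem_cons.1 h9 with h10 | h10
        · exact h10
        · exact List.eq_of_mem_replicate h10
      change s ∈ meets (X ((x :: List.replicate n x).get i))
      rw [h8]
      exact hsx
    obtain ⟨t, ht, h8⟩ := mem_fimp.1 (hX1 (x :: List.replicate n x) (f x n)) s (hs.trans hr61) h7
    exact hXB _ (hf x n) t (ht.trans hs) h8

/-- Chain conditions imply covering. -/
theorem covers_of_cc {κ : Cardinal.{u}} (hκ : κ.IsRegular) (h : ChainCondition P κ) (p : P) :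
    p ∈ Covers P κ := by
  classical
  intro Y θ hθ R
  refine mem_fimp.2 fun q hq hR => ⟨q, le_rfl, ?_⟩
  refine mem_fex.2 fun r hr => ⟨r, le_rfl, ?_⟩
  have hR' := down_IsFun _ _ hR _ hr
  refine ⟨⋃ i, {y | ∃ s ≤ r, s ∈ meets (R i y)}, ?_, fun i y => ?_⟩
  · change #(⋃ i, {y | ∃ s ≤ r, s ∈ meets (R i y)} : Set Y) < κ
    rw [card_iUnion_lt_iff_forall_of_isRegular hκ (by rwa [mk_out])]
    intro i
    choose f hf1 hf2 using fun (y : {y | ∃ s ≤ r, s ∈ meets (R i y)}) => y.2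
    have h1 : Function.Injective f := by
      intro y y' hyy
      have h2 := hf2 y
      have h3 := hf2 y'
      rw [← hyy] at h3
      exact Subtype.ext (IsFun.unique (down_IsFun _ _ hR' _ (hf1 y)) h2 h3)
    rw [← mk_range_eq f h1]
    apply h
    rintro _ ⟨y, rfl⟩ _ ⟨y', rfl⟩ ⟨s, hs1, hs2⟩
    have h2 := down_meets _ _ (hf2 y) _ hs1
    have h3 := down_meets _ _ (hf2 y') _ hs2
    rw [Subtype.ext (IsFun.unique (down_IsFun _ _ hR' _ (hs1.trans (hf1 y))) h2 h3)]
  · refine mem_fimp.2 fun s hs hsy => ⟨s, le_rfl, ?_⟩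
    exact Set.mem_iUnion.2 ⟨i, s, hs, hsy⟩

end Run7.h478
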