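import Mathlib
import Pool.Agent.Run7.h478.FDefsC
import Pool.Agent.Run7.h478.FMain
import Pool.Agent.Run7.h478.Ground

/-! Forcing with the covering property for small sets and Chang's Conjecture principles. -/

set_option autoImplicit false

namespace Run7.h478

open Cardinal Pool.Agent.Helper669.Forcing

variable {P : Type} [Preorder P]

theorem ground_of_forced_succ {γ : Cardinal.{0}} (hγ : γ.IsRegular) (hγ' : ℵ₀ < γ) {K : Type}
    {B : Set K} (hne : Nonempty K) (f : K → ℕ → K) (hf : ∀ x n, f x n ∈ B) {p : P}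
    (hp : p ∈ Covers P γ) (hT : p ∈ TransferSucc P K B γ) :
    ∃ D C : Set K, γ < #D ∧ #C < γ ∧ ∀ x ∈ D, ∀ n, f x n ∈ C := by
  classical
  by_contra hcon
  have hcon' : ∀ C : Set K, #C < γ → #{x | ∀ n, f x n ∈ C} ≤ γ := by
    intro C hC
    by_contra h
    exact hcon ⟨{x | ∀ n, f x n ∈ C}, C, not_le.1 h, hC, fun x hx => hx⟩
  have hneγ : Nonempty (Idx γ) := by
    rw [← Cardinal.mk_ne_zero_iff, mk_ord_toType]
    exact (aleph0_pos.trans hγ').ne'
  -- enumerations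
  have hd : ∀ C : Set K, ∃ d : Idx γ → K, #C < γ → ∀ x, (∀ n, f x n ∈ C) → ∃ ξ, d ξ = x := by
    intro C
    by_cases hC : #C < γ
    · have h1 : #{x | ∀ n, f x n ∈ C} ≤ #(Idx γ) := by
        rw [mk_ord_toType]
        exact hcon' C hC
      obtain ⟨j⟩ := (Cardinal.le_def _ _).1 h1
      refine ⟨fun ξ => if h : ∃ x, j x = ξ then h.choose.1 else hne.some, fun _ x hx => ?_⟩
      refine ⟨j ⟨x, hx⟩, ?_⟩
      have h2 : ∃ y, j y = j ⟨x, hx⟩ := ⟨_, rfl⟩
      change (if h : ∃ y, j y = j ⟨x, hx⟩ then (h.choose).1 else hne.some) = x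
      rw [dif_pos h2]
      exact congrArg Subtype.val (j.injective h2.choose_spec)
    · exact ⟨fun _ => hne.some, fun h => absurd h hC⟩
  choose d hd using hd
  let F₀ : List K → K := fun s => match s with
    | [] => hne.some
    | x :: t => f x t.length
  let F : List K → K → Set P := fun s y => {_r | F₀ s = y}
  have hFm : ∀ s y (r : P), r ∈ meets (F s y) ↔ F₀ s = y := by
    intro s y r
    constructor
    · intro h
      obtain ⟨_, _, _, h', _⟩ := h r le_rfl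
      exact h'
    · intro h
      exact meets_of_mem h
  have hF : p ∈ IsFun F := by
    refine ⟨fun s => mem_fex.2 fun r hr => ⟨r, le_rfl, F₀ s, (hFm _ _ _).2 rfl⟩,
      fun s y y' => mem_fimp.2 fun r hr hrr => ⟨r, le_rfl, ?_⟩⟩
    exact ((hFm _ _ _).1 hrr.1).symm.trans ((hFm _ _ _).1 hrr.2)
  obtain ⟨r, hr, h1⟩ := mem_fimp.1 (hT F) p le_rfl hF
  obtain ⟨r1, hr1, X, hX1, hX2, hX3⟩ := mem_fex.1 h1 r le_rfl
  obtain ⟨r2, hr2, R, hR1, hR2⟩ := mem_fex.1 hX3 r1 le_rfl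
  have hr2p : r2 ≤ p := hr2.trans (hr1.trans hr)
  have hcov := down_Covers γ _ hp _ hr2p
  refine hX2 r2 hr2 ?_
  -- the images of initial segments
  let Φ : Idx γ → Set K → Set P := fun ν C => fall fun i : Idx γ => fall fun _ : i < ν =>
    fall fun y => fimp (meets (R i y)) (fground (y ∈ C))
  have hΦd : ∀ ν C, Down (Φ ν C) := fun ν C =>
    down_fall fun _ => down_fall fun _ => down_fall fun _ => down_fimp _ _
  have ha : ∀ ν, ∀ s ≤ r2, ∃ t ≤ s, ∃ C : Set K, #C < γ ∧ t ∈ Φ ν C := by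
    intro ν s hs
    obtain ⟨e⟩ : Nonempty ((#(Set.Iio ν)).out ≃ Set.Iio ν) := by
      rw [← Cardinal.eq, mk_out]
    have h2 : s ∈ IsFun fun j => R (e j).1 := by
      have h3 := down_IsFun _ _ hR1 _ hs
      exact ⟨fun j => h3.1 _, fun j => h3.2 _⟩
    obtain ⟨t, ht, h4⟩ := mem_fimp.1 (hcov K #(Set.Iio ν) (mk_Iio_Idx ν) fun j => R (e j).1) s hs h2
    obtain ⟨t', ht', C, hC, h5⟩ := mem_fex.1 h4 t le_rfl
    refine ⟨t', ht'.trans ht, C, hC, fun i hi y => ?_⟩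
    have h6 := h5 (e.symm ⟨i, hi⟩) y
    simpa using h6
  -- least covers
  have hleast : ∀ ν, ∀ s ≤ r2, ∃ t ≤ s, ∃ C : Set K, #C < γ ∧ t ∈ Φ ν C ∧
      ∀ C', WellOrderingRel C' C → #C' < γ → t ∈ fnot (Φ ν C') := by
    intro ν s hs
    obtain ⟨t, ht, C, hC, h2⟩ := ha ν s hs
    have hwf : WellFounded (WellOrderingRel : Set K → Set K → Prop) :=
      IsWellFounded.wf
    let A : Set (Set K) := {C | #C < γ ∧ ∃ t ≤ s, t ∈ Φ ν C}
    have hA : A.Nonempty := ⟨C, hC, t, ht, h2⟩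
    obtain ⟨h3, t', ht', h4⟩ := hwf.min_mem A hA
    refine ⟨t', ht', hwf.min A hA, h3, h4, fun C' h5 h6 w hw hcon2 => ?_⟩
    exact hwf.not_lt_min A (x := C') ⟨h6, w, hw.trans ht', hcon2⟩ h5
  -- countable ranges are bounded
  have hb : ∀ x, ∀ s ≤ r2, s ∈ meets (X x) → ∃ t ≤ s, ∃ ν : Idx γ, ∀ n, ∀ w ≤ t, ∃ v ≤ w,
      ∃ i < ν, v ∈ meets (R i (f x n)) := by
    intro x s hs hsx
    let J : ℕ → Idx γ → Set P := fun n i =>
      {v | v ∈ meets (R i (f x n)) ∧ ∀ i' < i, v ∈ fnot (meets (R i' (f x n)))}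
    have hJd : ∀ n i, Down (J n i) := fun n i v hv w hw =>
      ⟨down_meets _ _ hv.1 _ hw, fun i' hi' => down_fnot _ _ (hv.2 i' hi') _ hw⟩
    have hJ1 : ∀ n, ∀ t ≤ s, ∃ v ≤ t, ∃ i, v ∈ J n i := by
      intro n t ht
      have h6 : F₀ (x :: List.replicate n x) = f x n := by
        simp [F₀]
      have h7 : t ∈ fand (fall fun i : Fin (x :: List.replicate n x).length =>
          meets (X ((x :: List.replicate n x).get i)))
          (meets (F (x :: List.replicate n x) (f x n))) := by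
        refine ⟨fun i => ?_, (hFm (x :: List.replicate n x) (f x n) t).2 h6⟩
        have h8 : (x :: List.replicate n x).get i = x := by
          have h9 := List.get_mem (x :: List.replicate n x) i
          rcases List.mem_cons.1 h9 with h10 | h10
          · exact h10
          · exact List.eq_of_mem_replicate h10
        change t ∈ meets (X ((x :: List.replicate n x).get i))
        rw [h8]
        exact down_meets _ _ hsx _ ht
      obtain ⟨t1, ht1, h8⟩ := mem_fimp.1 (hX1 (x :: List.replicate n x) (f x n)) t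
        (ht.trans (hs.trans hr2)) h7
      have h9 : t1 ∈ meets {p ∈ X (f x n) | f x n ∈ B} := by
        intro t' ht'
        obtain ⟨w, hw, v, hv, hwv⟩ := h8 t' ht'
        exact ⟨w, hw, v, ⟨hv, hf x n⟩, hwv⟩
      obtain ⟨t2, ht2, h10⟩ := mem_fimp.1 (hR2 (f x n)) t1 (ht1.trans (ht.trans hs)) h9
      obtain ⟨t3, ht3, i, hi⟩ := mem_fex.1 h10 t2 le_rfl
      let A : Set (Idx γ) := {i | ∃ v ≤ t3, v ∈ meets (R i (f x n))}
      have hA : A.Nonempty := ⟨i, t3, le_rfl, hi⟩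
      obtain ⟨v, hv, h11⟩ := wellFounded_lt.min_mem A hA
      refine ⟨v, hv.trans (ht3.trans (ht2.trans ht1)), wellFounded_lt.min A hA, h11, ?_⟩
      intro i' hi' w hw hcon2
      exact wellFounded_lt.not_lt_min A (x := i') ⟨w, hw.trans hv, hcon2⟩ hi'
    have hJ2 : ∀ n i i' v, v ∈ J n i → v ∈ J n i' → i = i' := by
      intro n i i' v h2 h3
      rcases lt_trichotomy i i' with h4 | h4 | h4
      · exact absurd h2.1 (h3.2 i h4 v le_rfl)
      · exact h4
      · exact absurd h3.1 (h2.2 i' h4 v le_rfl)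
    obtain ⟨e⟩ : Nonempty ((ℵ₀ : Cardinal.{0}).out ≃ ℕ) := by
      rw [← Cardinal.eq, mk_out, mk_nat]
    have hJf : s ∈ IsFun fun j => J (e j) := by
      refine ⟨fun j => mem_fex.2 fun t ht => ?_, fun j i i' => mem_fimp.2 fun t ht htt =>
        ⟨t, le_rfl, ?_⟩⟩
      · obtain ⟨v, hv, i, hi⟩ := hJ1 (e j) t ht
        exact ⟨v, hv, i, meets_of_mem hi⟩
      · obtain ⟨v, hv, h2⟩ := exists_of_meets (hJd _ _) htt.1
        obtain ⟨w, hw, h3⟩ := exists_of_meets (hJd _ _) (down_meets _ _ htt.2 _ hv)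
        exact hJ2 (e j) i i' w (hJd _ _ _ h2 _ hw) h3
    obtain ⟨t, ht, h4⟩ := mem_fimp.1 (hcov (Idx γ) ℵ₀ hγ' fun j => J (e j)) s hs hJf
    obtain ⟨t', ht', C', hC', h5⟩ := mem_fex.1 h4 t le_rfl
    obtain ⟨ν, hν⟩ := bddSmall_Idx hγ C' hC'
    refine ⟨t', ht'.trans ht, ν, fun n w hw => ?_⟩
    obtain ⟨v, hv, i, hi⟩ := hJ1 n w (hw.trans (ht'.trans ht))
    have h6 : v ∈ meets (J (e (e.symm n)) i) := by
      rw [Equiv.apply_symm_apply]
      exact meets_of_mem hi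
    obtain ⟨v', hv', h7⟩ := mem_fimp.1 (h5 (e.symm n) i) v (hv.trans hw) h6
    exact ⟨v, hv, i, hν i h7, hi.1⟩
  -- the covering of `X`
  obtain ⟨e2⟩ : Nonempty (Idx γ ≃ Idx γ × Idx γ) := by
    rw [← Cardinal.eq, mk_prod, mk_ord_toType]
    simp only [lift_id]
    exact (mul_eq_self hγ.aleph0_le).symm
  let R2 : Idx γ → K → Set P := fun j y => {t | ∃ C : Set K, #C < γ ∧ y = d C (e2 j).2 ∧
    t ∈ Φ (e2 j).1 C ∧ ∀ C', WellOrderingRel C' C → #C' < γ → t ∈ fnot (Φ (e2 j).1 C')}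
  have hR2d : ∀ j y, Down (R2 j y) := by
    rintro j y t ⟨C, hC, h2, h3, h4⟩ w hw
    exact ⟨C, hC, h2, hΦd _ _ _ h3 _ hw, fun C' h5 h6 => down_fnot _ _ (h4 C' h5 h6) _ hw⟩
  refine mem_fex.2 fun s hs => ⟨s, le_rfl, R2, ⟨?_, ?_⟩, ?_⟩
  · intro j
    refine mem_fex.2 fun t ht => ?_
    obtain ⟨t', ht', C, hC, h3, h4⟩ := hleast (e2 j).1 t (ht.trans hs)
    exact ⟨t', ht', d C (e2 j).2, meets_of_mem ⟨C, hC, rfl, h3, h4⟩⟩
  · intro j y y'
    refine mem_fimp.2 fun t ht htt => ⟨t, le_rfl, ?_⟩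
    obtain ⟨v, hv, h2⟩ := exists_of_meets (hR2d _ _) htt.1
    obtain ⟨w, hw, h3⟩ := exists_of_meets (hR2d _ _) (down_meets _ _ htt.2 _ hv)
    obtain ⟨C, hC, h4, h5, h6⟩ := hR2d _ _ _ h2 _ hw
    obtain ⟨C', hC', h7, h8, h9⟩ := h3
    rcases trichotomous_of WellOrderingRel C C' with h10 | h10 | h10
    · exact absurd h5 (h9 C h10 hC w le_rfl)
    · subst h10
      exact h4.trans h7.symm
    · exact absurd h8 (h6 C' h10 hC' w le_rfl)
  · intro x
    refine mem_fimp.2 fun t ht htx => ?_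
    obtain ⟨t1, ht1, ν, h2⟩ := hb x t (ht.trans hs) htx
    obtain ⟨t2, ht2, C, hC, h3, h4⟩ := hleast ν t1 (ht1.trans (ht.trans hs))
    have h5 : ∀ n, f x n ∈ C := by
      intro n
      obtain ⟨v, hv, i, hi, h6⟩ := h2 n t2 ht2
      obtain ⟨w, hw, h7⟩ := mem_fimp.1 (h3 i hi (f x n)) v hv h6
      exact h7
    obtain ⟨ξ, hξ⟩ := hd C hC x h5
    refine ⟨t2, ht2.trans ht1, ?_⟩
    refine mem_fex_of_mem (e2.symm (ν, ξ)) (down_meets _) (meets_of_mem ?_)
    refine ⟨C, hC, ?_, ?_, ?_⟩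
    · simp [hξ]
    · simpa using h3
    · simpa using h4

end Run7.h478
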